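import Pool.Agent.T2H98.EF.Stm

/-! # Package CCG: the mean of `|2 cos|^{2k}` -/

set_option autoImplicit false

open MeasureTheory Filter Topology Finset

namespace Pool.Agent.T2H98.EF

namespace CCG

lemma betaReal (k : ℝ) : (Complex.betaIntegral ((k + 1 / 2 : ℝ) : ℂ) ((1 / 2 : ℝ) : ℂ)).re =
    ∫ x in Set.Ioo (0 : ℝ) 1, x ^ ((k + 1 / 2 : ℝ) - 1) * (1 - x) ^ ((1 / 2 : ℝ) - 1) := by
  unfold Complex.betaIntegral
  rw [intervalIntegral.integral_of_le zero_le_one, ← integral_Ioc_eq_integral_Ioo]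
  have h : ∫ x in Set.Ioc (0 : ℝ) 1, ((x : ℂ) ^ (((k + 1 / 2 : ℝ) : ℂ) - 1) *
      (1 - (x : ℂ)) ^ (((1 / 2 : ℝ) : ℂ) - 1)) =
      ∫ x in Set.Ioc (0 : ℝ) 1, ((x ^ ((k + 1 / 2 : ℝ) - 1) * (1 - x) ^ ((1 / 2 : ℝ) - 1) : ℝ) : ℂ) := by
    refine setIntegral_congr_fun measurableSet_Ioc fun x hx => ?_
    rw [Complex.ofReal_mul, Complex.ofReal_cpow hx.1.le, Complex.ofReal_cpow (by linarith [hx.2])]
    push_cast
    rfl
  rw [h, integral_complex_ofReal, Complex.ofReal_re]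

lemma img : (fun t : ℝ => Real.cos t ^ 2) '' Set.Ioo 0 (Real.pi / 2) = Set.Ioo (0 : ℝ) 1 := by
  ext x
  constructor
  · rintro ⟨t, ht, rfl⟩
    have h1 : 0 < Real.cos t := Real.cos_pos_of_mem_Ioo ⟨by linarith [ht.1, Real.pi_pos], ht.2⟩
    have h2 : 0 < Real.sin t := Real.sin_pos_of_pos_of_lt_pi ht.1 (by linarith [ht.2, Real.pi_pos])
    have h3 := Real.sin_sq_add_cos_sq t
    exact ⟨by positivity, by nlinarith⟩
  · intro hx
    have h1 : 0 < √x := Real.sqrt_pos.2 hx.1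
    have h2 : √x < 1 := by rw [Real.sqrt_lt' one_pos]; simpa using hx.2
    refine ⟨Real.arccos (√x), ⟨Real.arccos_pos.2 h2, Real.arccos_lt_pi_div_two.2 h1⟩, ?_⟩
    show Real.cos (Real.arccos (√x)) ^ 2 = x
    rw [Real.cos_arccos (by linarith) h2.le, Real.sq_sqrt hx.1.le]

lemma subst_int (k : ℝ) :
    ∫ x in Set.Ioo (0 : ℝ) 1, x ^ ((k + 1 / 2 : ℝ) - 1) * (1 - x) ^ ((1 / 2 : ℝ) - 1) =
    2 * ∫ t in Set.Ioo (0 : ℝ) (Real.pi / 2), Real.cos t ^ (2 * k) := by
  have hinj : Set.InjOn (fun t : ℝ => Real.cos t ^ 2) (Set.Ioo 0 (Real.pi / 2)) := by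
    intro s hs t ht h
    have hs1 : 0 < Real.cos s := Real.cos_pos_of_mem_Ioo ⟨by linarith [hs.1, Real.pi_pos], hs.2⟩
    have ht1 : 0 < Real.cos t := Real.cos_pos_of_mem_Ioo ⟨by linarith [ht.1, Real.pi_pos], ht.2⟩
    have h2 : Real.cos s = Real.cos t := by
      have := (sq_eq_sq₀ hs1.le ht1.le).1 h
      exact this
    exact Real.injOn_cos ⟨hs.1.le, by linarith [hs.2, Real.pi_pos]⟩
      ⟨ht.1.le, by linarith [ht.2, Real.pi_pos]⟩ h2
  have hd : ∀ t ∈ Set.Ioo (0 : ℝ) (Real.pi / 2),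
      HasDerivWithinAt (fun t : ℝ => Real.cos t ^ 2) (2 * Real.cos t * (-Real.sin t))
        (Set.Ioo 0 (Real.pi / 2)) t := by
    intro t _
    have h := ((Real.hasDerivAt_cos t).mul (Real.hasDerivAt_cos t)).hasDerivWithinAt
      (s := Set.Ioo 0 (Real.pi / 2))
    have e : (fun t : ℝ => Real.cos t ^ 2) = Real.cos * Real.cos := by
      funext t; simp [sq]
    rw [e]
    have e2 : 2 * Real.cos t * (-Real.sin t) = -Real.sin t * Real.cos t + Real.cos t * -Real.sin t := by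
      ring
    rw [e2]
    exact h
  rw [← img, integral_image_eq_integral_abs_deriv_smul measurableSet_Ioo hd hinj,
    ← integral_const_mul]
  refine setIntegral_congr_fun measurableSet_Ioo fun t ht => ?_
  have h1 : 0 < Real.cos t := Real.cos_pos_of_mem_Ioo ⟨by linarith [ht.1, Real.pi_pos], ht.2⟩
  have h2 : 0 < Real.sin t := Real.sin_pos_of_pos_of_lt_pi ht.1 (by linarith [ht.2, Real.pi_pos])
  have h3 : 1 - Real.cos t ^ 2 = Real.sin t ^ 2 := by
    have := Real.sin_sq_add_cos_sq t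
    linarith
  simp only [smul_eq_mul]
  rw [h3, abs_of_neg (by nlinarith [mul_pos h1 h2] : 2 * Real.cos t * (-Real.sin t) < 0),
    ← Real.rpow_natCast (Real.cos t), ← Real.rpow_natCast (Real.sin t), ← Real.rpow_mul h1.le,
    ← Real.rpow_mul h2.le]
  have e1 : (Real.cos t) ^ (((2 : ℕ) : ℝ) * ((k + 1 / 2 : ℝ) - 1)) * Real.cos t = Real.cos t ^ (2 * k) := by
    rw [← Real.rpow_add_one h1.ne']
    congr 1
    push_cast
    ring
  have e2 : (Real.sin t) ^ (((2 : ℕ) : ℝ) * ((1 / 2 : ℝ) - 1)) * Real.sin t = 1 := by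
    rw [← Real.rpow_add_one h2.ne']
    norm_num
  calc -(2 * Real.cos t * (-Real.sin t)) * ((Real.cos t) ^ (((2 : ℕ) : ℝ) * ((k + 1 / 2 : ℝ) - 1)) *
        (Real.sin t) ^ (((2 : ℕ) : ℝ) * ((1 / 2 : ℝ) - 1))) =
        2 * ((Real.cos t) ^ (((2 : ℕ) : ℝ) * ((k + 1 / 2 : ℝ) - 1)) * Real.cos t) *
          ((Real.sin t) ^ (((2 : ℕ) : ℝ) * ((1 / 2 : ℝ) - 1)) * Real.sin t) := by ring
    _ = 2 * Real.cos t ^ (2 * k) := by rw [e1, e2, mul_one]

lemma quarter (k : ℝ) (hk : 0 < k) : ∫ t in (0 : ℝ)..(Real.pi / 2), Real.cos t ^ (2 * k) =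
    Real.Gamma (k + 1 / 2) * √Real.pi / Real.Gamma (k + 1) / 2 := by
  have h3 := ProbabilityTheory.beta_eq_betaIntegralReal (k + 1 / 2) (1 / 2) (by linarith) (by norm_num)
  rw [betaReal, subst_int, ProbabilityTheory.beta, Real.Gamma_one_half_eq,
    show k + 1 / 2 + 1 / 2 = k + 1 by ring] at h3
  rw [intervalIntegral.integral_of_le (by positivity), integral_Ioc_eq_integral_Ioo, h3]
  ring

lemma whole (k : ℝ) (hk : 0 < k) : ∫ x in (0 : ℝ)..(2 * Real.pi), |2 * Real.cos x| ^ (2 * k) =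
    4 * ((2 : ℝ) ^ (2 * k) * ∫ t in (0 : ℝ)..(Real.pi / 2), Real.cos t ^ (2 * k)) := by
  set f : ℝ → ℝ := fun x => |2 * Real.cos x| ^ (2 * k) with hf
  have hc : Continuous f := by
    apply Continuous.rpow_const (by fun_prop)
    intro x
    exact Or.inr (by linarith)
  have hi : ∀ a b : ℝ, IntervalIntegrable f volume a b := fun a b => hc.intervalIntegrable a b
  have h1 : ∫ x in (0 : ℝ)..(2 * Real.pi), f x =
      (∫ x in (0 : ℝ)..Real.pi, f x) + ∫ x in Real.pi..(2 * Real.pi), f x :=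
    (intervalIntegral.integral_add_adjacent_intervals (hi _ _) (hi _ _)).symm
  have h2 : ∫ x in Real.pi..(2 * Real.pi), f x = ∫ x in (0 : ℝ)..Real.pi, f x := by
    have h := intervalIntegral.integral_comp_add_right (a := (0 : ℝ)) (b := Real.pi) f Real.pi
    rw [zero_add, ← two_mul] at h
    rw [← h]
    refine intervalIntegral.integral_congr fun x _ => ?_
    simp only [hf, Real.cos_add_pi, mul_neg, abs_neg]
  have h3 : ∫ x in (0 : ℝ)..Real.pi, f x =
      (∫ x in (0 : ℝ)..(Real.pi / 2), f x) + ∫ x in (Real.pi / 2)..Real.pi, f x :=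
    (intervalIntegral.integral_add_adjacent_intervals (hi _ _) (hi _ _)).symm
  have h4 : ∫ x in (Real.pi / 2)..Real.pi, f x = ∫ x in (0 : ℝ)..(Real.pi / 2), f x := by
    have h := intervalIntegral.integral_comp_sub_left (a := (0 : ℝ)) (b := Real.pi / 2) f Real.pi
    rw [sub_zero, show Real.pi - Real.pi / 2 = Real.pi / 2 by ring] at h
    rw [← h]
    refine intervalIntegral.integral_congr fun x _ => ?_
    simp only [hf, Real.cos_pi_sub, mul_neg, abs_neg]
  have h5 : ∫ x in (0 : ℝ)..(Real.pi / 2), f x =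
      (2 : ℝ) ^ (2 * k) * ∫ t in (0 : ℝ)..(Real.pi / 2), Real.cos t ^ (2 * k) := by
    rw [← intervalIntegral.integral_const_mul]
    refine intervalIntegral.integral_congr fun x hx => ?_
    rw [Set.uIcc_of_le (by positivity)] at hx
    have hx0 : 0 ≤ Real.cos x := Real.cos_nonneg_of_neg_pi_div_two_le_of_le (by linarith [hx.1, Real.pi_pos]) hx.2
    simp only [hf]
    rw [abs_of_nonneg (by positivity), Real.mul_rpow (by norm_num) hx0]
  rw [h1, h2, h3, h4, h5]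
  ring

end CCG

theorem pCCG : S_CCG := by
  intro k hk
  unfold cc
  rw [CCG.whole k hk, CCG.quarter k hk]
  have h := Real.Gamma_mul_Gamma_add_half (k + 1 / 2)
  rw [show k + 1 / 2 + 1 / 2 = k + 1 by ring, show 2 * (k + 1 / 2) = 2 * k + 1 by ring,
    show (1 : ℝ) - (2 * k + 1) = -(2 * k) by ring, Real.rpow_neg (by norm_num)] at h
  have hG : 0 < Real.Gamma (k + 1) := Real.Gamma_pos_of_pos (by linarith)
  have h2 : (0 : ℝ) < 2 ^ (2 * k) := by positivity
  have hs : √Real.pi * √Real.pi = Real.pi := Real.mul_self_sqrt Real.pi_pos.le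
  have hpi := Real.pi_pos
  have hsp : 0 < √Real.pi := Real.sqrt_pos.2 hpi
  have h3 : Real.Gamma (2 * k + 1) = Real.Gamma (k + 1 / 2) * Real.Gamma (k + 1) * 2 ^ (2 * k) / √Real.pi := by
    rw [h]
    field_simp
  rw [h3]
  have h4 : (1 : ℝ) / (2 * Real.pi) = 1 / (2 * (√Real.pi * √Real.pi)) := by rw [hs]
  rw [h4]
  field_simp
  ring

end Pool.Agent.T2H98.EF
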