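import Pool.Agent.T2H98.EF.Stm
import Pool.Agent.T2H98.EP.CV

set_option autoImplicit false

open MeasureTheory Filter Topology Finset

namespace Pool.Agent.T2H98.EF

open Pool.Agent.T2H98.RT (P tw S_MUL S_OR S_AE)
open Pool.Agent.T2H98.EP (pr zp EU JE AA MK gr)
open Pool.Agent.H306R2 (lc dv aF)

namespace CVC

open Pool.Agent.T2H98.EP.CV

theorem conv (hMUL : S_MUL) (a : ℝ) (y : ℕ) : ∃ M : ℝ, 1 ≤ M ∧ ∀ ε : ℝ, 0 < ε → ∃ K₀ : ℕ, ∀ K : ℕ,
    K₀ ≤ K → ∀ (θ : ℕ → ℝ) (t : ℝ),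
    ‖TR θ a y K t - ∏ p ∈ pr y, 1 / (1 - zp θ t p) ^ (a : ℂ)‖ ≤ ε ∧ ‖TR θ a y K t‖ ≤ M ∧
      ‖∏ p ∈ pr y, 1 / (1 - zp θ t p) ^ (a : ℂ)‖ ≤ M := by
  set r : ℝ := (2 : ℝ) ^ (-(1 / 2) : ℝ) with hr
  have hr1 : r < 1 := r_lt
  have hr0 : 0 < r := Real.rpow_pos_of_pos (by norm_num) _
  have hsr : Summable (fun m : ℕ => |lc a m| * r ^ m) := by
    have h1 := (hasSum_B a (r : ℂ) (by rw [Complex.norm_real, Real.norm_eq_abs, abs_of_pos hr0]; exact hr1)).summable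
    have h2 := h1.norm
    refine h2.congr (fun m => ?_)
    rw [norm_mul, norm_pow, Complex.norm_real, Complex.norm_real, Real.norm_eq_abs, Real.norm_eq_abs,
      abs_of_pos hr0]
  have hnn : ∀ m : ℕ, 0 ≤ |lc a m| * r ^ m := fun m => mul_nonneg (abs_nonneg _) (pow_nonneg hr0.le _)
  set M : ℝ := max 1 (∑' m : ℕ, |lc a m| * r ^ m) with hM
  have hM1 : 1 ≤ M := le_max_left _ _
  set n : ℕ := (pr y).card with hn
  refine ⟨M ^ n, one_le_pow₀ hM1, fun ε hε => ?_⟩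
  set Q : ℝ := (n * M ^ n) + 1 with hQ
  have hQ0 : 0 < Q := by positivity
  have htail : Tendsto (fun K : ℕ => ∑' m : ℕ, |lc a (m + K)| * r ^ (m + K)) atTop (𝓝 0) :=
    tendsto_sum_nat_add (fun m : ℕ => |lc a m| * r ^ m)
  have hev := (htail.eventually (gt_mem_nhds (show (0 : ℝ) < ε / Q by positivity)))
  obtain ⟨K₀, hK₀⟩ := eventually_atTop.1 hev
  refine ⟨K₀, fun K hK θ t => ?_⟩
  set τ : ℝ := ∑' m : ℕ, |lc a (m + (K + 1))| * r ^ (m + (K + 1)) with hτ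
  have hτ0 : 0 ≤ τ := tsum_nonneg (fun m => hnn _)
  have hτε : τ < ε / Q := hK₀ (K + 1) (by omega)
  let A : ℕ → ℂ := fun p => ∑ m ∈ range (K + 1), (lc a m : ℂ) * zp θ t p ^ m
  let B : ℕ → ℂ := fun p => 1 / (1 - zp θ t p) ^ (a : ℂ)
  have hpr : ∀ p ∈ pr y, p.Prime := fun p hp => (mem_filter.1 hp).2
  have hz : ∀ p ∈ pr y, ‖zp θ t p‖ ≤ r := fun p hp => norm_zp hMUL θ t p (hpr p hp)
  have hterm : ∀ p ∈ pr y, ∀ m : ℕ, ‖(lc a m : ℂ) * zp θ t p ^ m‖ ≤ |lc a m| * r ^ m := by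
    intro p hp m
    rw [norm_mul, norm_pow, Complex.norm_real, Real.norm_eq_abs]
    exact mul_le_mul_of_nonneg_left (pow_le_pow_left₀ (norm_nonneg _) (hz p hp) m) (abs_nonneg _)
  have hS : ∀ p ∈ pr y, HasSum (fun m : ℕ => (lc a m : ℂ) * zp θ t p ^ m) (B p) := fun p hp =>
    hasSum_B a _ (lt_of_le_of_lt (hz p hp) hr1)
  have ha : ∀ p ∈ pr y, ‖A p‖ ≤ M := by
    intro p hp
    calc ‖A p‖ ≤ ∑ m ∈ range (K + 1), ‖(lc a m : ℂ) * zp θ t p ^ m‖ := norm_sum_le _ _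
      _ ≤ ∑ m ∈ range (K + 1), |lc a m| * r ^ m := sum_le_sum (fun m _ => hterm p hp m)
      _ ≤ ∑' m : ℕ, |lc a m| * r ^ m := hsr.sum_le_tsum _ (fun m _ => hnn m)
      _ ≤ M := le_max_right _ _
  have hb : ∀ p ∈ pr y, ‖B p‖ ≤ M := by
    intro p hp
    rw [← (hS p hp).tsum_eq]
    calc _ ≤ ∑' m : ℕ, |lc a m| * r ^ m := tsum_of_norm_bounded hsr.hasSum (hterm p hp)
      _ ≤ M := le_max_right _ _
  have hab : ∀ p ∈ pr y, ‖A p - B p‖ ≤ τ := by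
    intro p hp
    have h1 := (hS p hp).summable.sum_add_tsum_nat_add (K + 1)
    rw [(hS p hp).tsum_eq] at h1
    have h2 : A p - B p = -∑' m : ℕ, (lc a (m + (K + 1)) : ℂ) * zp θ t p ^ (m + (K + 1)) := by
      rw [← h1]; simp only [A]; ring
    rw [h2, norm_neg]
    exact tsum_of_norm_bounded ((summable_nat_add_iff (K + 1)).2 hsr).hasSum (fun m => hterm p hp _)
  obtain ⟨h1, h2, h3⟩ := prod_diff (pr y) A B M τ hM1 hτ0 ha hb hab
  refine ⟨h1.trans ?_, h2, h3⟩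
  calc (n : ℝ) * M ^ n * τ ≤ Q * τ := mul_le_mul_of_nonneg_right (by rw [hQ]; linarith) hτ0
    _ ≤ Q * (ε / Q) := mul_le_mul_of_nonneg_left hτε.le hQ0.le
    _ = ε := by field_simp

theorem pw_mul (k : ℝ) (m : ℤ) (u v : ℂ) : pw k m (u * v) = pw k m u * pw k m v := by
  unfold pw
  rw [norm_mul, Real.mul_rpow (norm_nonneg _) (norm_nonneg _)]
  have h : u * v / ((‖u‖ * ‖v‖ : ℝ) : ℂ) = (u / (‖u‖ : ℂ)) * (v / (‖v‖ : ℂ)) := by
    push_cast
    rw [mul_div_mul_comm]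
  rw [h, mul_zpow]
  push_cast
  ring

theorem pw_one (k : ℝ) (m : ℤ) : pw k m 1 = 1 := by
  unfold pw
  simp

theorem pw_prod (k : ℝ) (m : ℤ) (s : Finset ℕ) (f : ℕ → ℂ) :
    pw k m (∏ p ∈ s, f p) = ∏ p ∈ s, pw k m (f p) := by
  induction s using Finset.induction_on with
  | empty => simp [pw_one]
  | insert i s his ih => rw [prod_insert his, prod_insert his, pw_mul, ih]

theorem pw_exp (k : ℝ) (m : ℤ) (L : ℂ) : pw k m (Complex.exp (-L)) =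
    Complex.exp (-(L * ((k + m : ℝ) : ℂ))) * (starRingEnd ℂ) (Complex.exp (-(L * ((k - m : ℝ) : ℂ)))) := by
  have h1 : ((‖Complex.exp (-L)‖ ^ (2 * k) : ℝ) : ℂ) = Complex.exp (((-L.re * (2 * k) : ℝ) : ℂ)) := by
    rw [Complex.norm_exp, ← Real.exp_mul, Complex.ofReal_exp, Complex.neg_re]
  have h2 : Complex.exp (-L) / (‖Complex.exp (-L)‖ : ℂ) = Complex.exp (-(L.im : ℂ) * Complex.I) := by
    rw [Complex.norm_exp, Complex.ofReal_exp, ← Complex.exp_sub]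
    congr 1
    rw [Complex.neg_re]
    push_cast
    have h3 := Complex.re_add_im L
    linear_combination h3
  unfold pw
  rw [h1, h2, ← Complex.exp_int_mul, ← Complex.exp_conj, ← Complex.exp_add, ← Complex.exp_add]
  congr 1
  have hL : L = (L.re : ℂ) + L.im * Complex.I := (Complex.re_add_im L).symm
  have hLc : (starRingEnd ℂ) L = (L.re : ℂ) - L.im * Complex.I := by
    conv_lhs => rw [hL]
    rw [map_add, map_mul, Complex.conj_ofReal, Complex.conj_ofReal, Complex.conj_I]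
    ring
  rw [map_neg, map_mul, Complex.conj_ofReal, hLc]
  push_cast
  linear_combination ((k : ℂ) + m) * hL

theorem factor (k : ℝ) (m : ℤ) (u : ℂ) (hu : u ≠ 0) :
    (1 / u ^ ((k + m : ℝ) : ℂ)) * (starRingEnd ℂ) (1 / u ^ ((k - m : ℝ) : ℂ)) = pw k m u⁻¹ := by
  have hu1 : u⁻¹ = Complex.exp (-Complex.log u) := by
    rw [Complex.exp_neg, Complex.exp_log hu]
  rw [hu1, pw_exp, Complex.cpow_def_of_ne_zero hu, Complex.cpow_def_of_ne_zero hu, one_div, one_div,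
    ← Complex.exp_neg, ← Complex.exp_neg]

end CVC

open CVC Pool.Agent.T2H98.EP.CV in
theorem pCVC (hMUL : S_MUL) : S_CVC := by
  intro k m y hk ε hε
  obtain ⟨M₁, hM₁, H₁⟩ := conv hMUL (k + m) y
  obtain ⟨M₂, hM₂, H₂⟩ := conv hMUL (k - m) y
  have hM0 : 0 < M₁ + M₂ := by linarith
  obtain ⟨K₁, hK₁⟩ := H₁ (ε / (M₁ + M₂)) (by positivity)
  obtain ⟨K₂, hK₂⟩ := H₂ (ε / (M₁ + M₂)) (by positivity)
  refine ⟨max K₁ K₂, fun K hK θ t => ?_⟩
  obtain ⟨a1, a2, a3⟩ := hK₁ K ((le_max_left _ _).trans hK) θ t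
  obtain ⟨b1, b2, b3⟩ := hK₂ K ((le_max_right _ _).trans hK) θ t
  set A := TR θ (k + m) y K t with hA
  set B := TR θ (k - m) y K t with hB
  set A' := ∏ p ∈ pr y, 1 / (1 - zp θ t p) ^ ((k + m : ℝ) : ℂ) with hA'
  set B' := ∏ p ∈ pr y, 1 / (1 - zp θ t p) ^ ((k - m : ℝ) : ℂ) with hB'
  have hpw : pw k m (EU θ y t) = A' * (starRingEnd ℂ) B' := by
    unfold EU
    rw [pw_prod, hA', hB', map_prod, ← Finset.prod_mul_distrib]
    refine Finset.prod_congr rfl fun p hp => ?_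
    have hp' : p.Prime := (mem_filter.1 hp).2
    have hz : ‖zp θ t p‖ < 1 := lt_of_le_of_lt (norm_zp hMUL θ t p hp') r_lt
    have hne : (1 : ℂ) - zp θ t p ≠ 0 := by
      intro h0
      have h1 : zp θ t p = 1 := by linear_combination -h0
      rw [h1, norm_one] at hz
      exact lt_irrefl _ hz
    exact (factor k m _ hne).symm
  rw [hpw]
  have e : A * (starRingEnd ℂ) B - A' * (starRingEnd ℂ) B' =
      (A - A') * (starRingEnd ℂ) B + A' * (starRingEnd ℂ) (B - B') := by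
    rw [map_sub]
    ring
  rw [e]
  calc ‖(A - A') * (starRingEnd ℂ) B + A' * (starRingEnd ℂ) (B - B')‖
      ≤ ‖(A - A') * (starRingEnd ℂ) B‖ + ‖A' * (starRingEnd ℂ) (B - B')‖ := norm_add_le _ _
    _ = ‖A - A'‖ * ‖B‖ + ‖A'‖ * ‖B - B'‖ := by
        rw [norm_mul, norm_mul, RCLike.norm_conj, RCLike.norm_conj]
    _ ≤ (ε / (M₁ + M₂)) * M₂ + M₁ * (ε / (M₁ + M₂)) := by
        apply add_le_add
        · exact mul_le_mul a1 b2 (norm_nonneg _) (by positivity)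
        · exact mul_le_mul a3 b1 (norm_nonneg _) (by linarith)
    _ = ε := by
        field_simp
        ring

end Pool.Agent.T2H98.EF
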