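import Pool.Agent.T2H98.EF.Stm
import Pool.Agent.T2H98.EP.SUMC

/-!
# Package ENER of EF (helper98): the energy. Written by helper55.
-/

set_option autoImplicit false

open MeasureTheory Filter Topology Finset

namespace Pool.Agent.T2H98.EF

open Pool.Agent.T2H98.RT (P tw S_MUL S_OR S_AE)
open Pool.Agent.T2H98.EP (pr zp EU JE AA MK gr S_JME S_AAL S_GRE S_STEP S_INTTE S_INTNE S_MER)
open Pool.Agent.T2H98.RS (fi S_VG S_VDC)
open Pool.Agent.H306R2 (lc dv aF)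

namespace ENER

lemma lc_abs (a : ℝ) (m : ℕ) : |lc a m| ≤ lc |a| m := by
  unfold Pool.Agent.H306R2.lc
  rw [Finset.abs_prod]
  refine Finset.prod_le_prod (fun i _ => abs_nonneg _) fun i _ => ?_
  rw [abs_div, abs_of_pos (by positivity : (0 : ℝ) < (i : ℝ) + 1)]
  have h : |a + i| ≤ |a| + i := by
    have h1 := abs_add_le a (i : ℝ)
    rwa [Nat.abs_cast] at h1
  gcongr

lemma dv_abs (a : ℝ) (n : ℕ) : |dv a n| ≤ dv |a| n := by
  unfold Pool.Agent.H306R2.dv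
  split_ifs
  · simp
  · rw [Finsupp.prod, Finsupp.prod, Finset.abs_prod]
    exact Finset.prod_le_prod (fun i _ => abs_nonneg _) fun i _ => lc_abs a _

lemma dv_conv (α β : ℝ) (w : ℕ) :
    ∑ x ∈ w.divisorsAntidiagonal, dv α x.1 * dv β x.2 = dv (α + β) w := by
  have h := congrArg (fun f => f w) (Pool.Agent.H306R2.dA_mul α β)
  simp only [ArithmeticFunction.mul_apply, Pool.Agent.H306R2.dA_apply] at h
  exact h

/-- the pairs with product `w` -/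
noncomputable def f (a b : ℝ) (w u v : ℕ) : ℝ := if u * v = w then |dv a u| * |dv b v| else 0

lemma f_nonneg (a b : ℝ) (w u v : ℕ) : 0 ≤ f a b w u v := by
  unfold f
  split_ifs
  · positivity
  · exact le_refl _

lemma inner_le (a b : ℝ) (D : Finset ℕ) (w : ℕ) (hw : w ≠ 0) :
    ∑ x ∈ D ×ˢ D, f a b w x.1 x.2 ≤ dv (|a| + |b|) w := by
  rw [← dv_conv]
  unfold f
  rw [← Finset.sum_filter]
  calc ∑ x ∈ (D ×ˢ D).filter (fun x => x.1 * x.2 = w), |dv a x.1| * |dv b x.2|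
      ≤ ∑ x ∈ (D ×ˢ D).filter (fun x => x.1 * x.2 = w), dv |a| x.1 * dv |b| x.2 :=
        Finset.sum_le_sum fun x _ => mul_le_mul (dv_abs a _) (dv_abs b _) (abs_nonneg _)
          (Pool.Agent.H306R2.dv_nonneg (abs_nonneg a) _)
    _ ≤ ∑ x ∈ w.divisorsAntidiagonal, dv |a| x.1 * dv |b| x.2 := by
        refine Finset.sum_le_sum_of_subset_of_nonneg ?_ fun x _ _ =>
          mul_nonneg (Pool.Agent.H306R2.dv_nonneg (abs_nonneg a) _)
            (Pool.Agent.H306R2.dv_nonneg (abs_nonneg b) _)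
        intro x hx
        rw [Nat.mem_divisorsAntidiagonal]
        exact ⟨(Finset.mem_filter.mp hx).2, hw⟩

lemma MK_two (y K : ℕ) : MK y (2 * K) = MK y K * MK y K := by
  unfold Pool.Agent.T2H98.EP.MK
  rw [← Finset.prod_mul_distrib]
  refine Finset.prod_congr rfl fun p _ => ?_
  rw [two_mul, pow_add]

lemma quad (g : ℕ → ℕ → ℝ) (D : Finset ℕ) :
    ∑ q ∈ D ×ˢ D, ∑ r ∈ D ×ˢ D, g q.1 r.2 * g r.1 q.2 = (∑ x ∈ D ×ˢ D, g x.1 x.2) ^ 2 := by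
  rw [sq, Finset.sum_mul_sum]
  simp only [Finset.sum_product]
  refine Finset.sum_congr rfl fun q1 _ => ?_
  calc ∑ q2 ∈ D, ∑ r1 ∈ D, ∑ r2 ∈ D, g q1 r2 * g r1 q2
      = ∑ r1 ∈ D, ∑ q2 ∈ D, ∑ r2 ∈ D, g q1 r2 * g r1 q2 := Finset.sum_comm
    _ = ∑ r1 ∈ D, ∑ r2 ∈ D, ∑ q2 ∈ D, g q1 r2 * g r1 q2 :=
        Finset.sum_congr rfl fun r1 _ => Finset.sum_comm
    _ = ∑ r2 ∈ D, ∑ r1 ∈ D, ∑ q2 ∈ D, g q1 r2 * g r1 q2 := Finset.sum_comm

/-- one term -/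
lemma term (a b : ℝ) (E : Finset ℕ) (q r : ℕ × ℕ) (hq1 : 0 < q.1) (hr2 : 0 < r.2)
    (hE : q.1 * r.2 ∈ E) :
    (if q.1 * r.2 = r.1 * q.2 then
      abs (dv a q.1 * dv b q.2) / Real.sqrt ((q.1 : ℝ) * q.2) * (abs (dv a r.1 * dv b r.2) / Real.sqrt ((r.1 : ℝ) * r.2))
      else 0) ≤ ∑ w ∈ E, f a b w q.1 r.2 * f a b w r.1 q.2 / w := by
  have hnn : ∀ w ∈ E, 0 ≤ f a b w q.1 r.2 * f a b w r.1 q.2 / (w : ℝ) := fun w _ =>
    div_nonneg (mul_nonneg (f_nonneg _ _ _ _ _) (f_nonneg _ _ _ _ _)) (Nat.cast_nonneg w)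
  split_ifs with h
  · refine le_trans (le_of_eq ?_) (Finset.single_le_sum hnn hE)
    unfold f
    rw [if_pos rfl, if_pos h.symm]
    have h1 : ((q.1 : ℝ)) * r.2 = (r.1 : ℝ) * q.2 := by exact_mod_cast h
    have hs : Real.sqrt ((q.1 : ℝ) * q.2) * Real.sqrt ((r.1 : ℝ) * r.2) = (q.1 : ℝ) * r.2 := by
      rw [← Real.sqrt_mul (by positivity)]
      have h2 : (q.1 : ℝ) * q.2 * ((r.1 : ℝ) * r.2) = ((q.1 : ℝ) * r.2) ^ 2 := by
        calc (q.1 : ℝ) * q.2 * ((r.1 : ℝ) * r.2) = ((q.1 : ℝ) * r.2) * ((r.1 : ℝ) * q.2) := by ring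
          _ = ((q.1 : ℝ) * r.2) ^ 2 := by rw [← h1]; ring
      rw [h2, Real.sqrt_sq (by positivity)]
    rw [div_mul_div_comm, hs, abs_mul, abs_mul]
    push_cast
    ring
  · exact Finset.sum_nonneg hnn

lemma prod_le_AA (γ : ℝ) (hγ : 0 < γ) (y K : ℕ) :
    ∑ w ∈ (MK y K).divisors, dv γ w ^ 2 / w ≤ AA γ y := by
  have h := Pool.Agent.T2H98.EP.SUMC.sum_div γ y K
  have h' : ∑ w ∈ (MK y K).divisors, dv γ w ^ 2 / w =
      ∑ d ∈ (MK y K).divisors, Pool.Agent.T2H98.EP.SUMC.gA γ d := rfl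
  rw [h', h]
  unfold Pool.Agent.T2H98.EP.AA
  refine Finset.prod_le_prod (fun p _ => Finset.sum_nonneg fun m _ => by positivity) fun p hp => ?_
  have hp' : p.Prime := (Finset.mem_filter.mp hp).2
  have h2 := Pool.Agent.H306R2.inv_prime hp'
  have hs : Summable (fun m : ℕ => lc γ m ^ 2 * (1 / (p : ℝ)) ^ m) := by
    refine Summable.of_nonneg_of_le (fun m => mul_nonneg (sq_nonneg _) (pow_nonneg h2.1.le _))
      (fun m => mul_le_mul_of_nonneg_right (Pool.Agent.H306R2.lc_sq_le hγ.le m) (pow_nonneg h2.1.le _))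
      (Pool.Agent.H306R2.lc_summable (by positivity) h2.1 (by linarith [h2.2]))
  exact hs.sum_le_tsum _ fun m _ => mul_nonneg (sq_nonneg _) (pow_nonneg h2.1.le _)

end ENER

theorem pENER : S_ENER := by
  intro a b y K hab
  set D : Finset ℕ := (MK y K).divisors with hD
  set E : Finset ℕ := (MK y (2 * K)).divisors with hE
  have hpos : ∀ n ∈ D, 0 < n := fun n hn => Nat.pos_of_mem_divisors hn
  have hM : MK y K ≠ 0 := (Pool.Agent.T2H98.EP.SUMC.MK_pos y K).ne'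
  have hmem : ∀ u ∈ D, ∀ v ∈ D, u * v ∈ E := by
    intro u hu v hv
    rw [hE, Nat.mem_divisors, ENER.MK_two]
    exact ⟨Nat.mul_dvd_mul (Nat.dvd_of_mem_divisors hu) (Nat.dvd_of_mem_divisors hv), mul_ne_zero hM hM⟩
  calc ∑ q ∈ D ×ˢ D, ∑ r ∈ D ×ˢ D,
    (if q.1 * r.2 = r.1 * q.2 then
      abs (dv a q.1 * dv b q.2) / Real.sqrt ((q.1 : ℝ) * q.2) * (abs (dv a r.1 * dv b r.2) / Real.sqrt ((r.1 : ℝ) * r.2))
      else 0)
      ≤ ∑ q ∈ D ×ˢ D, ∑ r ∈ D ×ˢ D, ∑ w ∈ E, ENER.f a b w q.1 r.2 * ENER.f a b w r.1 q.2 / w := by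
        refine Finset.sum_le_sum fun q hq => Finset.sum_le_sum fun r hr => ?_
        rw [Finset.mem_product] at hq hr
        exact ENER.term a b E q r (hpos _ hq.1) (hpos _ hr.2) (hmem _ hq.1 _ hr.2)
    _ = ∑ w ∈ E, (∑ q ∈ D ×ˢ D, ∑ r ∈ D ×ˢ D, ENER.f a b w q.1 r.2 * ENER.f a b w r.1 q.2) / w := by
        have h1 : ∀ q ∈ D ×ˢ D, ∑ r ∈ D ×ˢ D, ∑ w ∈ E, ENER.f a b w q.1 r.2 * ENER.f a b w r.1 q.2 / (w : ℝ) =
            ∑ w ∈ E, ∑ r ∈ D ×ˢ D, ENER.f a b w q.1 r.2 * ENER.f a b w r.1 q.2 / (w : ℝ) := fun q _ =>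
          Finset.sum_comm
        rw [Finset.sum_congr rfl h1, Finset.sum_comm]
        refine Finset.sum_congr rfl fun w _ => ?_
        rw [Finset.sum_div]
        refine Finset.sum_congr rfl fun q _ => ?_
        rw [Finset.sum_div]
    _ = ∑ w ∈ E, (∑ x ∈ D ×ˢ D, ENER.f a b w x.1 x.2) ^ 2 / w :=
        Finset.sum_congr rfl fun w _ => by rw [ENER.quad]
    _ ≤ ∑ w ∈ E, dv (|a| + |b|) w ^ 2 / w := by
        refine Finset.sum_le_sum fun w hw => ?_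
        have h1 := ENER.inner_le a b D w (Nat.pos_of_mem_divisors hw).ne'
        have h0 : 0 ≤ ∑ x ∈ D ×ˢ D, ENER.f a b w x.1 x.2 := Finset.sum_nonneg fun x _ => ENER.f_nonneg _ _ _ _ _
        gcongr
    _ ≤ AA (|a| + |b|) y := ENER.prod_le_AA _ hab y _

end Pool.Agent.T2H98.EF
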