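import Pool.Agent.T2H98.EF.Stm

/-! Project EF, package FINH: the final statement. -/

set_option autoImplicit false

open MeasureTheory Filter Topology Finset

namespace Pool.Agent.T2H98.EF

open Pool.Agent.T2H98.RT (P tw S_MUL S_OR S_AE)
open Pool.Agent.T2H98.EP (pr zp EU JE AA MK gr S_JME S_AAL S_GRE S_STEP S_INTTE S_INTNE S_MER)
open Pool.Agent.T2H98.RS (fi S_VG S_VDC)
open Pool.Agent.H306R2 (lc dv aF)

namespace FINH

/-- the relative statement for one `k` and one `η` -/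
def Rel (θ : ℕ → ℝ) (k η : ℝ) : Prop := ∀ ε : ℝ, 0 < ε → ∃ (y₀ : ℕ) (T₀ : ℝ), 1 ≤ T₀ ∧
  ∀ (T : ℝ) (y : ℕ), T₀ ≤ T → y₀ ≤ y → (y : ℝ) ≤ T ^ (2 - η) → |JH θ k y T - cc k * AA k y| ≤ ε * AA k y

lemma rel_ae (hJHG : S_JHG) (hGRE2 : S_GRE2) (hINTH : S_INTH) (hINTTE : S_INTTE) (hINNH : S_INNH)
    {k : ℝ} (hk : 0 < k) : ∀ᵐ θ ∂P, ∀ n : ℕ, Rel θ k (1 / ((n : ℝ) + 1)) := by
  rw [ae_all_iff]
  intro n
  have h0 : (0 : ℝ) < 1 / ((n : ℝ) + 1) := by positivity
  have h1 : 1 / ((n : ℝ) + 1) ≤ 1 := by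
    rw [div_le_one (by positivity)]
    have : (0 : ℝ) ≤ n := Nat.cast_nonneg n
    linarith
  obtain ⟨a, ha, hae⟩ := hJHG k _ hk h0 h1
  obtain ⟨b, hb, hbe⟩ := hGRE2 k _ hk h0 h1
  have hb1 : 1 ≤ b := by
    have h2 : (0 : ℝ) < 16 / (1 / ((n : ℝ) + 1)) := by positivity
    have h3 : (0 : ℝ) < b := lt_of_lt_of_le h2 hb
    exact_mod_cast h3
  filter_upwards [hae, hbe] with θ hθ hθ2
  exact hINNH θ k _ hk h0 h1 (hINTH θ k _ a hk ha h0 h1 hθ) (hINTTE θ k _ b hk hb1 h0 h1 hθ2)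

end FINH

theorem pFINH (hJHG : S_JHG) (hGRE2 : S_GRE2) (hINTH : S_INTH) (hINTTE : S_INTTE)
    (hINNH : S_INNH) (hMER : S_MER) (hAAL : S_AAL) (hMC : S_MC) : S_FINH := by
  intro k hk
  filter_upwards [FINH.rel_ae hJHG hGRE2 hINTH hINTTE hINNH hk] with θ hθ
  intro η hη ε hε
  obtain ⟨n, hn⟩ := exists_nat_one_div_lt hη
  have hn1 : 1 / ((n : ℝ) + 1) ≤ 1 := by
    rw [div_le_one (by positivity)]
    have : (0 : ℝ) ≤ n := Nat.cast_nonneg n
    linarith
  have hlim := hMER k hk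
  set gam : ℝ := aF k * Real.exp (Real.eulerMascheroniConstant * k ^ 2) with hgam
  set κ : ℝ := cc k with hκ
  have hκ0 : 0 < |κ| + 1 := by positivity
  have hA1' := (hAAL k hk).1
  have hg : 0 ≤ gam := by
    refine ge_of_tendsto hlim ?_
    filter_upwards [eventually_ge_atTop 3] with y hy
    have h1 := hA1' y
    have h2 : 0 ≤ Real.log y := Real.log_natCast_nonneg y
    positivity
  obtain ⟨N₁, T₁, hT₁, hrel⟩ := hθ n (ε / (6 * (gam + 1))) (by positivity)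
  have hev : ∀ᶠ N : ℕ in atTop, |AA k N / Real.log N ^ (k ^ 2) - gam| <
      min (ε / (2 * (|κ| + 1))) 1 := by
    have := (Metric.tendsto_nhds.mp hlim) (min (ε / (2 * (|κ| + 1))) 1) (by positivity)
    filter_upwards [this] with N hN
    rwa [Real.dist_eq] at hN
  obtain ⟨N₂, hN₂⟩ := eventually_atTop.mp hev
  refine ⟨max (max N₁ N₂) 3, T₁, ?_⟩
  intro T N hT hN hNT
  have hN1 : N₁ ≤ N := (le_max_left _ _).trans ((le_max_left _ _).trans hN)
  have hN2 : N₂ ≤ N := (le_max_right _ _).trans ((le_max_left _ _).trans hN)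
  have hN3 : 3 ≤ N := (le_max_right _ _).trans hN
  have hT1 : 1 ≤ T := hT₁.trans hT
  have hT0 : 0 < T := by linarith
  have hexp : (T : ℝ) ^ (2 - η) ≤ T ^ (2 - 1 / ((n : ℝ) + 1)) :=
    Real.rpow_le_rpow_of_exponent_le hT1 (by linarith)
  have hexp2 : (T : ℝ) ^ (2 - 1 / ((n : ℝ) + 1)) ≤ (2 * T) ^ (2 - 1 / ((n : ℝ) + 1)) :=
    Real.rpow_le_rpow hT0.le (by linarith) (by linarith)
  have r1 := hrel T N hT hN1 (hNT.trans hexp)
  have r2 := hrel (2 * T) N (by linarith) hN1 (hNT.trans (hexp.trans hexp2))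
  -- the integral
  obtain ⟨B, -, -, hc, -⟩ := hMC k N hk
  have hcont : Continuous (fun t => |H θ N t| ^ (2 * k)) :=
    (hc θ).abs.rpow_const fun _ => Or.inr (by positivity)
  have hsplit : (∫ t in T..(2 * T), |H θ N t| ^ (2 * k)) =
      (∫ t in (0:ℝ)..(2 * T), |H θ N t| ^ (2 * k)) - ∫ t in (0:ℝ)..T, |H θ N t| ^ (2 * k) :=
    (intervalIntegral.integral_interval_sub_left (hcont.intervalIntegrable _ _)
      (hcont.intervalIntegrable _ _)).symm
  have hJ : 1 / T * (∫ t in T..(2 * T), |H θ N t| ^ (2 * k)) = 2 * JH θ k N (2 * T) - JH θ k N T := by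
    rw [hsplit]
    unfold JH
    field_simp
  rw [hJ]
  have hLpos : 0 < Real.log N ^ (k ^ 2) := by
    apply Real.rpow_pos_of_pos
    apply Real.log_pos
    exact_mod_cast (by omega : 1 < N)
  set L : ℝ := Real.log N ^ (k ^ 2) with hL
  have hA : |AA k N - gam * L| ≤ min (ε / (2 * (|κ| + 1))) 1 * L := by
    have h1 := (hN₂ N hN2).le
    have h2 : AA k N - gam * L = (AA k N / L - gam) * L := by
      field_simp
    rw [h2, abs_mul, abs_of_pos hLpos]
    gcongr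
  have hA1 : AA k N ≤ (gam + 1) * L := by
    have h1 := (abs_le.mp hA).2
    have h2 : min (ε / (2 * (|κ| + 1))) 1 * L ≤ 1 * L := by
      gcongr
      exact min_le_right _ _
    linarith
  have hA0 : 0 ≤ AA k N := le_trans zero_le_one (hA1' N)
  have hA2 : |κ * (AA k N - gam * L)| ≤ ε / 2 * L := by
    rw [abs_mul]
    calc |κ| * |AA k N - gam * L| ≤ (|κ| + 1) * (ε / (2 * (|κ| + 1)) * L) := by
          refine mul_le_mul (by linarith) ?_ (abs_nonneg _) hκ0.le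
          refine hA.trans ?_
          gcongr
          exact min_le_left _ _
      _ = ε / 2 * L := by field_simp
  have hA3 : ε / (6 * (gam + 1)) * AA k N ≤ ε / 6 * L := by
    calc ε / (6 * (gam + 1)) * AA k N ≤ ε / (6 * (gam + 1)) * ((gam + 1) * L) := by gcongr
      _ = ε / 6 * L := by field_simp
  have hfin : 2 * JH θ k N (2 * T) - JH θ k N T - κ * gam * L =
      2 * (JH θ k N (2 * T) - κ * AA k N) - (JH θ k N T - κ * AA k N) +
        κ * (AA k N - gam * L) := by ring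
  rw [hfin]
  rw [abs_le] at r1 r2 hA2 ⊢
  constructor <;> linarith [r1.1, r1.2, r2.1, r2.2, hA2.1, hA2.2]

end Pool.Agent.T2H98.EF
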