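import Pool.Agent.T2H98.EF.Stm
import Pool.Agent.T2H98.EP.All

/-! # Package GRE2: almost sure convergence along the grid, explicit exponent -/

set_option autoImplicit false

open MeasureTheory Filter Topology Finset

namespace Pool.Agent.T2H98.EF

open Pool.Agent.T2H98.RT (P tw ph D QS quads S_MUL S_OR S_VAR1 S_AE pAE)
open Pool.Agent.T2H98.EP (pr zp EU JE AA MK gr S_JME S_VARL S_QSE vVARL vQSE vJME)
open Pool.Agent.T2H98.EP.GRE
open Pool.Agent.H306R2 (lc dv aF)

theorem GRE2.core (hVARL : S_VARL) (hQSE : S_QSE) (hJME : S_JME) (hAE : S_AE) : S_GRE2 := by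
  intro k η hk hη hη1
  obtain ⟨C, hC, hqs⟩ := hQSE k hk
  obtain ⟨C', hC'⟩ : ∃ C' : ℝ, C' = C / (η / (16 * C)) ^ C := ⟨_, rfl⟩
  have hC'0 : 0 < C' := by rw [hC']; positivity
  set a : ℕ := ⌈16 / η⌉₊ with ha
  have ha8 : 16 / η ≤ a := Nat.le_ceil _
  refine ⟨a, ha8, ?_⟩
  have hm1 : ∀ j : ℕ, (1 : ℝ) ≤ ((max j 1 : ℕ) : ℝ) := fun j => by exact_mod_cast le_max_right _ _
  have ht1 : ∀ j : ℕ, (1 : ℝ) ≤ ((max j 1 : ℕ) : ℝ) ^ a := fun j => one_le_pow₀ (hm1 j)
  have ht0 : ∀ j : ℕ, (0 : ℝ) < ((max j 1 : ℕ) : ℝ) ^ a := fun j => by linarith [ht1 j]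
  have hXc : ∀ j i : ℕ, Continuous (fun θ : ℕ → ℝ =>
      JE θ k (gr η i) (((max j 1 : ℕ) : ℝ) ^ a) - AA k (gr η i)) := fun j i => by
    obtain ⟨B, _, _, _, h3⟩ := hJME k (gr η i) hk
    exact (h3 _ (ht0 j)).1.sub continuous_const
  have hmain := hAE (ℕ → ℝ) P
    (fun j i θ => JE θ k (gr η i) (((max j 1 : ℕ) : ℝ) ^ a) - AA k (gr η i))
    (fun j i => 2 / ((max j 1 : ℕ) : ℝ) ^ a * (C' * (gr η i : ℝ) ^ (η / 16)))
    (fun j => FF η a j)
    (fun j i => (hXc j i).measurable)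
    (fun j i => by
      obtain ⟨B, hB, _, _, h3⟩ := hJME k (gr η i) hk
      refine Integrable.of_bound (C := (B + |AA k (gr η i)|) ^ 2)
        ((hXc j i).pow 2).aestronglyMeasurable ?_
      refine Eventually.of_forall fun θ => ?_
      rw [Real.norm_eq_abs, abs_pow]
      refine pow_le_pow_left₀ (abs_nonneg _) ?_ 2
      refine (abs_sub _ _).trans ?_
      obtain ⟨h1, h2⟩ := (h3 _ (ht0 j)).2 θ
      rw [abs_of_nonneg h1]
      linarith)
    (fun j i hi => by
      rw [mem_FF] at hi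
      refine (hVARL k (gr η i) _ (C * Real.log (gr η i) ^ C) hk (ht0 j)
        (fun K => hqs _ K hi.2.1)).trans ?_
      refine mul_le_mul_of_nonneg_left ?_ (by have := ht0 j; positivity)
      rw [hC']
      exact log_bound hC hη hi.2.1)
    (by
      refine Summable.of_nonneg_of_le (fun j => Finset.sum_nonneg fun i _ => by positivity)
        (fun j => bound hC'0 hη hη1 ha8 j) ?_
      refine Summable.mul_left _ ?_
      have h1 : Summable (fun n : ℕ => 1 / (n : ℝ) ^ 2) :=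
        Real.summable_one_div_nat_pow.2 (by norm_num)
      have h2 := (summable_nat_add_iff 1).2 h1
      refine h2.congr fun n => ?_
      push_cast
      rfl)
  filter_upwards [hmain] with θ hθ ε hε
  filter_upwards [hθ ε hε, eventually_ge_atTop 1] with j hj hj1 i hi hij
  have hmax : max j 1 = j := max_eq_left hj1
  rw [hmax] at hj
  refine hj i ?_
  rw [mem_FF]
  have hjj : (1 : ℝ) ≤ (j : ℝ) + 1 := by
    have : (0 : ℝ) ≤ j := Nat.cast_nonneg j
    linarith
  have hx1 : (1 : ℝ) ≤ ((j : ℝ) + 1) ^ a := one_le_pow₀ hjj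
  refine ⟨⟨?_, Nat.le_floor (range_le hη hη1 hx1 hij)⟩, hi, hij⟩
  by_contra h0
  have h0' : i = 0 := by omega
  subst h0'
  have : gr η 0 = 0 := by
    unfold gr
    rw [Nat.cast_zero, Real.zero_rpow (by linarith), Nat.floor_zero]
  omega

theorem pGRE2 : S_GRE2 := GRE2.core vVARL vQSE vJME pAE

end Pool.Agent.T2H98.EF
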