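import Pool.Agent.T2H98.EF.Stm
import Pool.Agent.T2H98.EP.GRE

/-! # Package GRM: almost sure decay of the harmonics along the grid -/

set_option autoImplicit false

open MeasureTheory Filter Topology Finset

namespace Pool.Agent.T2H98.EF

open Pool.Agent.T2H98.RT (P tw S_MUL S_OR S_AE)
open Pool.Agent.T2H98.EP (pr zp EU JE AA MK gr S_JME S_AAL S_GRE S_STEP S_INTTE S_INTNE S_MER)
open Pool.Agent.T2H98.RS (fi S_VG S_VDC)
open Pool.Agent.H306R2 (lc dv aF)
open Pool.Agent.T2H98.EP.GRE (log_bound range_le FF mem_FF bound)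

namespace GRM

/-- the mean value is smaller than a small power -/
lemma AA_bound (hMER : S_MER) {γ η : ℝ} (hγ : 0 < γ) (hη : 0 < η) :
    ∃ C : ℝ, 0 < C ∧ ∀ y : ℕ, 3 ≤ y → AA γ y ≤ C * (y : ℝ) ^ (η / 16) := by
  obtain ⟨B, hB⟩ := (hMER γ hγ).bddAbove_range
  set C : ℝ := max (max B (γ ^ 2)) 1 with hC
  have hC1 : 1 ≤ C := le_max_right _ _
  have hC0 : 0 < C := by linarith
  have hCB : B ≤ C := (le_max_left _ _).trans (le_max_left _ _)
  have hCγ : γ ^ 2 ≤ C := (le_max_right _ _).trans (le_max_left _ _)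
  refine ⟨C / (η / (16 * C)) ^ C, by positivity, fun y hy => ?_⟩
  refine le_trans ?_ (log_bound hC0 hη hy)
  have hy3 : (3 : ℝ) ≤ y := by exact_mod_cast hy
  have hlog : 1 ≤ Real.log y := by
    rw [Real.le_log_iff_exp_le (by linarith)]
    have := Real.exp_one_lt_d9
    linarith
  have hlog0 : 0 < Real.log y ^ (γ ^ 2) := Real.rpow_pos_of_pos (by linarith) _
  have h1 : AA γ y / Real.log y ^ (γ ^ 2) ≤ C := (hB ⟨y, rfl⟩).trans hCB
  rw [div_le_iff₀ hlog0] at h1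
  exact h1.trans (mul_le_mul_of_nonneg_left (Real.rpow_le_rpow_of_exponent_le hlog hCγ) hC0.le)

end GRM

open GRM

theorem pGRM (hVARM : S_VARM) (hMC : S_MC) (hMER : S_MER) (hAE : S_AE) : S_GRM := by
  intro k η a hk hη hη1 ha8
  obtain ⟨C₀, hC₀, hvar⟩ := hVARM
  rw [ae_all_iff]
  intro m
  by_cases hm : m = 0
  · exact Eventually.of_forall fun θ h => absurd hm h
  obtain ⟨γ, hγ⟩ : ∃ γ : ℝ, γ = |k + m| + |k - m| := ⟨_, rfl⟩
  have hγ0 : 0 < γ := by
    have h1 := abs_add_le (k + (m : ℝ)) (k - m)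
    have h2 : (k + (m : ℝ)) + (k - m) = 2 * k := by ring
    rw [h2, abs_of_pos (by linarith : (0 : ℝ) < 2 * k)] at h1
    rw [hγ]
    linarith
  obtain ⟨C', hC'0, hAA⟩ := AA_bound hMER hγ0 hη
  have hCC : 0 < C₀ * C' := mul_pos hC₀ hC'0
  have ht1 : ∀ j : ℕ, (1 : ℝ) ≤ ((max j 1 : ℕ) : ℝ) ^ a := fun j =>
    one_le_pow₀ (by exact_mod_cast le_max_right _ _)
  have ht0 : ∀ j : ℕ, (0 : ℝ) < ((max j 1 : ℕ) : ℝ) ^ a := fun j => by linarith [ht1 j]
  obtain ⟨B, hB, _, _, _, hmeas, _⟩ := hMC k 0 hk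
  clear hmeas
  have hcore : ∀ g : ℂ → ℝ, Measurable g → (∀ z, |g z| ≤ ‖z‖) →
      ∀ᵐ θ ∂P, ∀ ε : ℝ, 0 < ε → ∀ᶠ j in atTop, ∀ i ∈ FF η a j,
        |g (C θ k m (gr η i) (((max j 1 : ℕ) : ℝ) ^ a))| ≤ ε := by
    intro g hg hgz
    have hmeas : ∀ j i : ℕ, Measurable fun θ : ℕ → ℝ =>
        g (C θ k m (gr η i) (((max j 1 : ℕ) : ℝ) ^ a)) := by
      intro j i
      obtain ⟨B, _, _, _, _, h, _⟩ := hMC k (gr η i) hk
      exact hg.comp (h m _ (ht0 j)).1
    refine hAE (ℕ → ℝ) P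
      (fun j i θ => g (C θ k m (gr η i) (((max j 1 : ℕ) : ℝ) ^ a)))
      (fun j i => 2 / ((max j 1 : ℕ) : ℝ) ^ a * ((C₀ * C') * (gr η i : ℝ) ^ (η / 16)))
      (fun j => FF η a j) hmeas ?_ ?_ ?_
    · intro j i
      obtain ⟨B, hB, _, _, _, h, _⟩ := hMC k (gr η i) hk
      refine Integrable.of_bound (C := B ^ 2) ((hmeas j i).pow_const 2).aestronglyMeasurable ?_
      refine Eventually.of_forall fun θ => ?_
      rw [Real.norm_eq_abs, abs_pow]
      exact pow_le_pow_left₀ (abs_nonneg _) ((hgz _).trans ((h m _ (ht0 j)).2 θ)) 2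
    · intro j i hi
      rw [mem_FF] at hi
      obtain ⟨B, hB, _, _, _, h, _⟩ := hMC k (gr η i) hk
      have hint : Integrable (fun θ : ℕ → ℝ => ‖C θ k m (gr η i) (((max j 1 : ℕ) : ℝ) ^ a)‖ ^ 2) P := by
        refine Integrable.of_bound (C := B ^ 2)
          ((h m _ (ht0 j)).1.norm.pow_const 2).aestronglyMeasurable ?_
        refine Eventually.of_forall fun θ => ?_
        rw [Real.norm_eq_abs, abs_pow, abs_norm]
        exact pow_le_pow_left₀ (norm_nonneg _) ((h m _ (ht0 j)).2 θ) 2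
      have h1 : ∫ θ, g (C θ k m (gr η i) (((max j 1 : ℕ) : ℝ) ^ a)) ^ 2 ∂P ≤
          ∫ θ, ‖C θ k m (gr η i) (((max j 1 : ℕ) : ℝ) ^ a)‖ ^ 2 ∂P := by
        refine integral_mono_of_nonneg (Eventually.of_forall fun θ => sq_nonneg _) hint
          (Eventually.of_forall fun θ => ?_)
        have h2 := pow_le_pow_left₀ (abs_nonneg _)
          (hgz (C θ k m (gr η i) (((max j 1 : ℕ) : ℝ) ^ a))) 2
        rw [sq_abs] at h2
        exact h2
      refine h1.trans ((hvar k m (gr η i) _ hk hm (ht0 j)).trans ?_)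
      rw [← hγ]
      have h3 := hAA (gr η i) hi.2.1
      have h4 : 0 ≤ C₀ / ((max j 1 : ℕ) : ℝ) ^ a := div_nonneg hC₀.le (ht0 j).le
      have h5 : 0 ≤ C' * (gr η i : ℝ) ^ (η / 16) := by positivity
      calc C₀ / ((max j 1 : ℕ) : ℝ) ^ a * AA γ (gr η i)
          ≤ C₀ / ((max j 1 : ℕ) : ℝ) ^ a * (C' * (gr η i : ℝ) ^ (η / 16)) :=
            mul_le_mul_of_nonneg_left h3 h4
        _ ≤ 2 * (C₀ / ((max j 1 : ℕ) : ℝ) ^ a * (C' * (gr η i : ℝ) ^ (η / 16))) := by
            have := mul_nonneg h4 h5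
            linarith
        _ = 2 / ((max j 1 : ℕ) : ℝ) ^ a * ((C₀ * C') * (gr η i : ℝ) ^ (η / 16)) := by ring
    · refine Summable.of_nonneg_of_le (fun j => Finset.sum_nonneg fun i _ => ?_)
        (fun j => bound hCC hη hη1 ha8 j) ?_
      · have := ht0 j
        positivity
      · refine Summable.mul_left _ ?_
        have h1 : Summable (fun n : ℕ => 1 / (n : ℝ) ^ 2) :=
          Real.summable_one_div_nat_pow.2 (by norm_num)
        have h2 := (summable_nat_add_iff 1).2 h1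
        refine h2.congr fun n => ?_
        push_cast
        rfl
  filter_upwards [hcore Complex.re Complex.measurable_re Complex.abs_re_le_norm,
    hcore Complex.im Complex.measurable_im Complex.abs_im_le_norm] with θ h1 h2 _ ε hε
  filter_upwards [h1 (ε / 2) (half_pos hε), h2 (ε / 2) (half_pos hε), eventually_ge_atTop 1]
    with j hj1 hj2 hj i hi hij
  have hmax : max j 1 = j := max_eq_left hj
  rw [hmax] at hj1 hj2
  have hmem : i ∈ FF η a j := by
    rw [mem_FF]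
    have hjj : (1 : ℝ) ≤ (j : ℝ) + 1 := by
      have : (0 : ℝ) ≤ j := Nat.cast_nonneg j
      linarith
    have hx1 : (1 : ℝ) ≤ ((j : ℝ) + 1) ^ a := one_le_pow₀ hjj
    refine ⟨⟨?_, Nat.le_floor (range_le hη hη1 hx1 hij)⟩, hi, hij⟩
    by_contra h0
    have h0' : i = 0 := by omega
    subst h0'
    have : gr η 0 = 0 := by
      unfold gr
      rw [Nat.cast_zero, Real.zero_rpow (by linarith), Nat.floor_zero]
    omega
  have h3 := Complex.norm_le_abs_re_add_abs_im (C θ k m (gr η i) ((j : ℝ) ^ a))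
  have h4 := hj1 i hmem
  have h5 := hj2 i hmem
  linarith

end Pool.Agent.T2H98.EF
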