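import Pool.Agent.T2H98.EF.Stm

/-!
# Package JHG: the mean of the twisted Hardy function along the grid
-/

set_option autoImplicit false

open MeasureTheory Filter Topology Finset

namespace Pool.Agent.T2H98.EF

open Pool.Agent.T2H98.RT (P tw S_MUL S_OR S_AE)
open Pool.Agent.T2H98.EP (pr zp EU JE AA MK gr S_JME S_AAL S_GRE S_STEP S_INTTE S_INTNE S_MER)
open Pool.Agent.T2H98.RS (fi S_VG S_VDC)
open Pool.Agent.H306R2 (lc dv aF)

namespace JHG

lemma norm_ph (x : ℝ) (w : ℂ) : ‖Complex.exp (x * Complex.I) * w‖ = ‖w‖ := by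
  rw [norm_mul, Complex.norm_exp_ofReal_mul_I, one_mul]

lemma pw_ph (k : ℝ) (m : ℤ) (x : ℝ) (w : ℂ) :
    pw k m (Complex.exp (x * Complex.I) * w) =
      Complex.exp (((2 * m * x : ℝ) : ℂ) * Complex.I) * pw k m w := by
  unfold pw
  rw [norm_ph, mul_div_assoc, mul_zpow, ← Complex.exp_int_mul]
  have : ((2 * m : ℤ) : ℂ) * ((x : ℂ) * Complex.I) = ((2 * m * x : ℝ) : ℂ) * Complex.I := by
    push_cast
    ring
  rw [this]
  ring

lemma pw_zero (k : ℝ) (w : ℂ) : pw k 0 w = ((‖w‖ ^ (2 * k) : ℝ) : ℂ) := by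
  unfold pw
  simp

lemma C_zero (θ : ℕ → ℝ) (k : ℝ) (y : ℕ) (T : ℝ) : C θ k 0 y T = (JE θ k y T : ℂ) := by
  unfold C JE
  push_cast
  congr 1
  rw [← intervalIntegral.integral_ofReal]
  refine intervalIntegral.integral_congr fun t _ => ?_
  simp only [pw_zero]
  simp

/-- the comparison for one `θ` -/
lemma approx (hMC : S_MC) (θ : ℕ → ℝ) (k : ℝ) (hk : 0 < k) (y : ℕ) (T : ℝ) (hT : 0 < T) (ε : ℝ)
    (M : ℕ) (g : ℤ → ℂ)
    (hg : ∀ w : ℂ, w ≠ 0 → ‖((|2 * w.re| ^ (2 * k) : ℝ) : ℂ) -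
      ∑ m ∈ Icc (-(M : ℤ)) M, g m * pw k m w‖ ≤ ε * ‖w‖ ^ (2 * k)) :
    ‖(JH θ k y T : ℂ) - ∑ m ∈ Icc (-(M : ℤ)) M, g m * C θ k m y T‖ ≤ ε * JE θ k y T := by
  obtain ⟨B, hB, hc, hH, hne, -, -, hint⟩ := hMC k y hk
  have hHi : IntervalIntegrable (fun t : ℝ => ((|H θ y t| ^ (2 * k) : ℝ) : ℂ)) volume 0 T := by
    refine Continuous.intervalIntegrable ?_ _ _
    refine Complex.continuous_ofReal.comp ?_
    exact ((hH θ).abs).rpow_const fun _ => Or.inr (by positivity)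
  have hmi : ∀ m : ℤ, IntervalIntegrable (fun t : ℝ =>
      Complex.exp (((2 * m * fi t : ℝ) : ℂ) * Complex.I) * pw k m (EU θ y t)) volume 0 T := by
    intro m
    exact (hint m T).mul_continuousOn (hc m θ).continuousOn
  have hsi : IntervalIntegrable (fun t : ℝ => ∑ m ∈ Icc (-(M : ℤ)) M, g m *
      (Complex.exp (((2 * m * fi t : ℝ) : ℂ) * Complex.I) * pw k m (EU θ y t))) volume 0 T := by
    have := IntervalIntegrable.sum (μ := volume) (a := 0) (b := T) (Icc (-(M : ℤ)) (M : ℤ))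
      (f := fun m t => g m *
      (Complex.exp (((2 * m * fi t : ℝ) : ℂ) * Complex.I) * pw k m (EU θ y t)))
      (fun m _ => (hmi m).const_mul (g m))
    refine this.congr ?_
    intro t _
    simp [Finset.sum_apply]
  have hEi : IntervalIntegrable (fun t : ℝ => ε * ‖EU θ y t‖ ^ (2 * k)) volume 0 T := by
    refine Continuous.intervalIntegrable ?_ _ _
    have h1 : Continuous fun t : ℝ => (pw k 0 (EU θ y t)).re := Complex.continuous_re.comp (hc 0 θ)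
    simp only [pw_zero, Complex.ofReal_re] at h1
    exact continuous_const.mul h1
  have e1 : (JH θ k y T : ℂ) - ∑ m ∈ Icc (-(M : ℤ)) M, g m * C θ k m y T =
      1 / (T : ℂ) * ∫ t in (0:ℝ)..T, (((|H θ y t| ^ (2 * k) : ℝ) : ℂ) -
        ∑ m ∈ Icc (-(M : ℤ)) M, g m *
          (Complex.exp (((2 * m * fi t : ℝ) : ℂ) * Complex.I) * pw k m (EU θ y t))) := by
    rw [intervalIntegral.integral_sub hHi hsi, mul_sub,
      intervalIntegral.integral_finsetSum (fun m _ => (hmi m).const_mul (g m)), Finset.mul_sum]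
    congr 1
    · unfold JH
      push_cast
      congr 1
      rw [← intervalIntegral.integral_ofReal]
    · refine Finset.sum_congr rfl fun m _ => ?_
      rw [intervalIntegral.integral_const_mul]
      unfold C
      ring
  rw [e1, norm_mul]
  have e2 : ‖(1 / (T : ℂ))‖ = 1 / T := by
    rw [norm_div, norm_one, Complex.norm_real, Real.norm_eq_abs, abs_of_pos hT]
  rw [e2]
  have e3 : ε * JE θ k y T = 1 / T * ∫ t in (0:ℝ)..T, ε * ‖EU θ y t‖ ^ (2 * k) := by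
    unfold JE
    rw [intervalIntegral.integral_const_mul]
    ring
  rw [e3]
  refine mul_le_mul_of_nonneg_left ?_ (by positivity)
  refine intervalIntegral.norm_integral_le_of_norm_le hT.le ?_ hEi
  refine Eventually.of_forall fun t _ => ?_
  have hw := hg (Complex.exp (fi t * Complex.I) * EU θ y t)
    (mul_ne_zero (Complex.exp_ne_zero _) (hne 0 θ t).1)
  rw [norm_ph] at hw
  have e4 : |H θ y t| = |2 * (Complex.exp (fi t * Complex.I) * EU θ y t).re| := rfl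
  rw [e4]
  have e5 : ∑ m ∈ Icc (-(M : ℤ)) M, g m *
      (Complex.exp (((2 * m * fi t : ℝ) : ℂ) * Complex.I) * pw k m (EU θ y t)) =
      ∑ m ∈ Icc (-(M : ℤ)) M, g m * pw k m (Complex.exp (fi t * Complex.I) * EU θ y t) := by
    refine Finset.sum_congr rfl fun m _ => ?_
    rw [pw_ph]
  rw [e5]
  exact hw

/-- the arithmetic -/
lemma arith (JHv JEv A ccv ε e1 e2 e3 G : ℝ) (g0 : ℂ) (S : ℂ) (hε : 0 < ε) (hA : 1 ≤ A)
    (hJE0 : 0 ≤ JEv) (he1 : e1 = ε / 12) (he3 : 0 < e3) (hG : 0 ≤ G) (hG3 : G * e3 ≤ ε / 3)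
    (he2 : e2 ≤ 1) (he2' : |ccv| * e2 ≤ ε / 3)
    (h1 : ‖(JHv : ℂ) - (g0 * (JEv : ℂ) + S)‖ ≤ e1 * JEv) (h2 : ‖g0 - (ccv : ℂ)‖ ≤ e1)
    (h3 : ‖S‖ ≤ G * e3) (h4 : |JEv - A| ≤ e2) :
    |JHv - ccv * A| ≤ ε * A := by
  have h5 : ((JHv - ccv * A : ℝ) : ℂ) = ((JHv : ℂ) - (g0 * (JEv : ℂ) + S)) +
      (g0 - (ccv : ℂ)) * (JEv : ℂ) + S + (ccv : ℂ) * ((JEv - A : ℝ) : ℂ) := by
    push_cast
    ring
  have h6 : |JHv - ccv * A| = ‖((JHv - ccv * A : ℝ) : ℂ)‖ := by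
    rw [Complex.norm_real, Real.norm_eq_abs]
  have hJ : JEv ≤ 2 * A := by
    have := (abs_le.1 h4).2
    linarith
  have h7 : ‖(g0 - (ccv : ℂ)) * (JEv : ℂ)‖ ≤ e1 * JEv := by
    rw [norm_mul, Complex.norm_real, Real.norm_eq_abs, abs_of_nonneg hJE0]
    exact mul_le_mul_of_nonneg_right h2 hJE0
  have h8 : ‖(ccv : ℂ) * ((JEv - A : ℝ) : ℂ)‖ ≤ |ccv| * e2 := by
    rw [norm_mul, Complex.norm_real, Complex.norm_real, Real.norm_eq_abs, Real.norm_eq_abs]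
    exact mul_le_mul_of_nonneg_left h4 (abs_nonneg _)
  rw [h6, h5]
  have h9 := norm_add_le (((JHv : ℂ) - (g0 * (JEv : ℂ) + S)) +
      (g0 - (ccv : ℂ)) * (JEv : ℂ) + S) ((ccv : ℂ) * ((JEv - A : ℝ) : ℂ))
  have h10 := norm_add_le (((JHv : ℂ) - (g0 * (JEv : ℂ) + S)) +
      (g0 - (ccv : ℂ)) * (JEv : ℂ)) S
  have h11 := norm_add_le ((JHv : ℂ) - (g0 * (JEv : ℂ) + S)) ((g0 - (ccv : ℂ)) * (JEv : ℂ))
  have h12 : e1 * JEv ≤ ε / 12 * (2 * A) := by
    rw [he1]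
    exact mul_le_mul_of_nonneg_left hJ (by positivity)
  have h13 : ε / 3 ≤ ε / 3 * A := by
    have := mul_le_mul_of_nonneg_left hA (show 0 ≤ ε / 3 by positivity)
    linarith
  linarith

end JHG

open JHG in
theorem pJHG (hTRIG : S_TRIG) (hGRM : S_GRM) (hGRE2 : S_GRE2) (hMC : S_MC) (hAAL : S_AAL) : S_JHG := by
  intro k η hk hη hη1
  obtain ⟨a, ha, hgre⟩ := hGRE2 k η hk hη hη1
  have ha1 : 1 ≤ a := by
    have h16 : (16 : ℝ) ≤ 16 / η := by
      rw [le_div_iff₀ hη]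
      linarith
    have : (1 : ℝ) ≤ a := by linarith
    exact_mod_cast this
  refine ⟨a, ha1, ?_⟩
  filter_upwards [hgre, hGRM k η a hk hη hη1 ha] with θ h1 h2
  intro ε hε
  obtain ⟨M, g, hg, hg0⟩ := hTRIG k (ε / 12) hk (by positivity)
  set G : ℝ := ∑ m ∈ (Icc (-(M : ℤ)) M).erase 0, ‖g m‖ with hGdef
  have hG : 0 ≤ G := Finset.sum_nonneg fun _ _ => norm_nonneg _
  set e3 : ℝ := ε / (3 * (G + 1)) with he3
  have he3p : 0 < e3 := by positivity
  have hG3 : G * e3 ≤ ε / 3 := by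
    rw [he3, ← mul_div_assoc, div_le_div_iff₀ (by positivity) (by norm_num)]
    nlinarith
  set e2 : ℝ := min 1 (ε / (3 * (|cc k| + 1))) with he2
  have he2p : 0 < e2 := lt_min one_pos (by positivity)
  have he2' : |cc k| * e2 ≤ ε / 3 := by
    have h5 : |cc k| * e2 ≤ |cc k| * (ε / (3 * (|cc k| + 1))) :=
      mul_le_mul_of_nonneg_left (min_le_right _ _) (abs_nonneg _)
    refine h5.trans ?_
    rw [← mul_div_assoc, div_le_div_iff₀ (by positivity) (by norm_num)]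
    nlinarith [abs_nonneg (cc k)]
  have hev : ∀ᶠ j : ℕ in atTop, ∀ m ∈ (Icc (-(M : ℤ)) M).erase 0, ∀ i : ℕ, 3 ≤ gr η i →
      (gr η i : ℝ) ≤ (((j : ℝ) + 1) ^ a) ^ (2 - η) → ‖C θ k m (gr η i) ((j : ℝ) ^ a)‖ ≤ e3 := by
    rw [Filter.eventually_all_finset]
    intro m hm
    exact h2 m (Finset.ne_of_mem_erase hm) e3 he3p
  filter_upwards [h1 e2 he2p, hev, eventually_gt_atTop 0] with j hj1 hj2 hj0 i hi3 hi
  have hT : (0 : ℝ) < (j : ℝ) ^ a := by
    have : (0 : ℝ) < j := by exact_mod_cast hj0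
    positivity
  have hJE0 : 0 ≤ JE θ k (gr η i) ((j : ℝ) ^ a) := by
    unfold JE
    refine mul_nonneg (by positivity) ?_
    exact intervalIntegral.integral_nonneg hT.le fun t _ => by positivity
  have hap := approx hMC θ k hk (gr η i) ((j : ℝ) ^ a) hT (ε / 12) M g hg
  have h0 : (0 : ℤ) ∈ Icc (-(M : ℤ)) (M : ℤ) := by
    rw [Finset.mem_Icc]
    constructor <;> simp
  rw [← Finset.add_sum_erase _ _ h0, C_zero] at hap
  refine arith _ _ (AA k (gr η i)) (cc k) ε (ε / 12) e2 e3 G (g 0) _ hε ((hAAL k hk).1 _) hJE0 rfl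
    he3p hG hG3 (min_le_left _ _) he2' hap hg0 ?_ (hj1 i hi3 hi)
  refine (norm_sum_le _ _).trans ?_
  rw [hGdef, Finset.sum_mul]
  refine Finset.sum_le_sum fun m hm => ?_
  rw [norm_mul]
  exact mul_le_mul_of_nonneg_left (hj2 m hm i hi3 hi) (norm_nonneg _)

end Pool.Agent.T2H98.EF
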