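import Pool.Agent.T2H98.EF.Stm
import Pool.Agent.T2H98.EP.JME

/-! # EF, package MC (helper77): continuity and bounds -/

set_option autoImplicit false

open MeasureTheory Filter Topology Finset

namespace Pool.Agent.T2H98.EF

open Pool.Agent.T2H98.RT (P tw S_MUL S_OR S_AE)
open Pool.Agent.T2H98.EP (pr zp EU JE AA MK gr S_JME S_AAL S_GRE S_STEP S_INTTE S_INTNE S_MER)
open Pool.Agent.T2H98.RS (fi S_VG S_VDC)
open Pool.Agent.H306R2 (lc dv aF)

namespace MC

lemma fi_cont : Continuous fi := by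
  obtain ⟨c, hc⟩ : ∃ c : ℝ, c = 2 * Real.pi * Real.exp 1 := ⟨_, rfl⟩
  have hc0 : c ≠ 0 := by rw [hc]; positivity
  have h1 : Continuous fun t : ℝ => (t / c) * Real.log (t / c) :=
    Real.continuous_mul_log.comp (continuous_id.div_const c)
  have h2 : fi = fun t : ℝ => c / 2 * ((t / c) * Real.log (t / c)) - Real.pi / 8 := by
    funext t
    unfold Pool.Agent.T2H98.RS.fi
    rw [← hc]
    field_simp
  rw [h2]
  exact (continuous_const.mul h1).sub continuous_const

lemma eu_ne (hMUL : S_MUL) (θ : ℕ → ℝ) (y : ℕ) (t : ℝ) : ∀ p ∈ pr y, (1 - zp θ t p) ≠ 0 := by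
  intro p hp h
  have := Pool.Agent.T2H98.EP.JME.ne hMUL θ t (mem_filter.mp hp).2
  rw [h, norm_zero] at this
  norm_num at this

lemma eu_t (hMUL : S_MUL) (θ : ℕ → ℝ) (y : ℕ) : Continuous fun t : ℝ => EU θ y t := by
  unfold Pool.Agent.T2H98.EP.EU
  refine continuous_finset_prod _ fun p hp => ?_
  exact (continuous_const.sub (Pool.Agent.T2H98.EP.JME.cont_t θ p (mem_filter.mp hp).2)).inv₀
    fun t => eu_ne hMUL θ y t p hp

lemma eu_θ (hMUL : S_MUL) (y : ℕ) (t : ℝ) : Continuous fun θ : ℕ → ℝ => EU θ y t := by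
  unfold Pool.Agent.T2H98.EP.EU
  refine continuous_finset_prod _ fun p hp => ?_
  exact (continuous_const.sub (Pool.Agent.T2H98.EP.JME.cont_θ hMUL t p)).inv₀
    fun θ => eu_ne hMUL θ y t p hp

lemma pw_cont {X : Type*} [TopologicalSpace X] {k : ℝ} (hk : 0 < k) (m : ℤ) {w : X → ℂ}
    (hw : Continuous w) (h0 : ∀ x, w x ≠ 0) : Continuous fun x => pw k m (w x) := by
  unfold pw
  have h2k : 0 ≤ 2 * k := by linarith
  refine Continuous.mul ?_ ?_
  · exact Complex.continuous_ofReal.comp (hw.norm.rpow_const fun x => Or.inr h2k)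
  · have hn : ∀ x, ((‖w x‖ : ℝ) : ℂ) ≠ 0 := fun x => by
      rw [Complex.ofReal_ne_zero]
      exact norm_ne_zero_iff.2 (h0 x)
    refine Continuous.zpow₀ (hw.div (Complex.continuous_ofReal.comp hw.norm) hn) (2 * m) fun x => ?_
    exact Or.inl (div_ne_zero (h0 x) (hn x))

lemma pw_norm (k : ℝ) (m : ℤ) {w : ℂ} (hw : w ≠ 0) : ‖pw k m w‖ = ‖w‖ ^ (2 * k) := by
  unfold pw
  have hn : ‖w‖ ≠ 0 := norm_ne_zero_iff.2 hw
  rw [norm_mul, norm_zpow, norm_div, Complex.norm_real, Complex.norm_real, norm_norm, div_self hn,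
    one_zpow, mul_one, Real.norm_of_nonneg (Real.rpow_nonneg (norm_nonneg _) _)]

lemma exp_cont (m : ℤ) :
    Continuous fun t : ℝ => Complex.exp (((2 * m * fi t : ℝ) : ℂ) * Complex.I) := by
  have h : Continuous fun t : ℝ => (2 * m * fi t : ℝ) := continuous_const.mul fi_cont
  exact Complex.continuous_exp.comp ((Complex.continuous_ofReal.comp h).mul continuous_const)

end MC

open MC in
theorem pMC (hJME : S_JME) (hMUL : S_MUL) : S_MC := by
  intro k y hk
  obtain ⟨B, hB, hb, -, -⟩ := hJME k y hk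
  have hne : ∀ (θ : ℕ → ℝ) (t : ℝ), EU θ y t ≠ 0 := fun θ t => norm_pos_iff.1 (hb θ t).1
  have hle : ∀ (m : ℤ) (θ : ℕ → ℝ) (t : ℝ), ‖pw k m (EU θ y t)‖ ≤ B := fun m θ t => by
    rw [pw_norm k m (hne θ t)]
    exact (hb θ t).2
  have hct : ∀ (m : ℤ) (θ : ℕ → ℝ), Continuous (fun t : ℝ => pw k m (EU θ y t)) := fun m θ =>
    pw_cont hk m (eu_t hMUL θ y) (hne θ)
  have hcθ : ∀ (m : ℤ) (t : ℝ), Continuous (fun θ : ℕ → ℝ => pw k m (EU θ y t)) := fun m t =>
    pw_cont hk m (eu_θ hMUL y t) fun θ => hne θ t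
  have hin : ∀ (m : ℤ) (θ : ℕ → ℝ), Continuous (fun t : ℝ =>
      Complex.exp (((2 * m * fi t : ℝ) : ℂ) * Complex.I) * pw k m (EU θ y t)) := fun m θ =>
    (exp_cont m).mul (hct m θ)
  have hbd : ∀ (m : ℤ) (θ : ℕ → ℝ) (t : ℝ),
      ‖Complex.exp (((2 * m * fi t : ℝ) : ℂ) * Complex.I) * pw k m (EU θ y t)‖ ≤ B := by
    intro m θ t
    rw [norm_mul, Complex.norm_exp_ofReal_mul_I, one_mul]
    exact hle m θ t
  refine ⟨B, hB, hct, fun θ => ?_, fun m θ t => ⟨hne θ t, hle m θ t⟩, fun m T hT => ⟨?_, fun θ => ?_⟩,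
    fi_cont.measurable, fun m T => (exp_cont m).intervalIntegrable _ _⟩
  · unfold H
    refine continuous_const.mul (Complex.continuous_re.comp ?_)
    exact (Complex.continuous_exp.comp
      ((Complex.continuous_ofReal.comp fi_cont).mul continuous_const)).mul (eu_t hMUL θ y)
  · refine Continuous.measurable ?_
    unfold C
    refine continuous_const.mul ?_
    refine intervalIntegral.continuous_of_dominated_interval (bound := fun _ => B) ?_ ?_ ?_ ?_
    · intro θ
      exact (hin m θ).aestronglyMeasurable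
    · intro θ
      exact Eventually.of_forall fun t _ => hbd m θ t
    · exact intervalIntegrable_const
    · exact Eventually.of_forall fun t _ => continuous_const.mul (hcθ m t)
  · unfold C
    rw [norm_mul]
    have h1 : ‖∫ t in (0:ℝ)..T, Complex.exp (((2 * m * fi t : ℝ) : ℂ) * Complex.I) *
        pw k m (EU θ y t)‖ ≤ B * |T - 0| :=
      intervalIntegral.norm_integral_le_of_norm_le_const fun t _ => hbd m θ t
    rw [sub_zero, abs_of_pos hT] at h1
    have h2 : ‖(1 / (T : ℂ))‖ = 1 / T := by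
      rw [norm_div, norm_one, Complex.norm_real, Real.norm_of_nonneg hT.le]
    rw [h2]
    calc 1 / T * ‖∫ t in (0:ℝ)..T, Complex.exp (((2 * m * fi t : ℝ) : ℂ) * Complex.I) *
        pw k m (EU θ y t)‖ ≤ 1 / T * (B * T) := mul_le_mul_of_nonneg_left h1 (by positivity)
      _ = B := by field_simp

end Pool.Agent.T2H98.EF
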