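import Pool.Agent.T2H98.EF.Stm
import Pool.Agent.T2H98.EP.STEP

/-! # Package STPH: one step of the grid for the twisted Hardy function -/

set_option autoImplicit false

open MeasureTheory Filter Topology Finset

namespace Pool.Agent.T2H98.EF

open Pool.Agent.T2H98.RT (P tw S_MUL S_OR S_AE)
open Pool.Agent.T2H98.EP (pr zp EU JE AA MK gr S_JME S_AAL S_GRE S_STEP S_INTTE S_INTNE S_MER)
open Pool.Agent.T2H98.RS (fi S_VG S_VDC)
open Pool.Agent.H306R2 (lc dv aF)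

namespace STPH

lemma key {k : ℝ} (hk : 0 < k) {δ : ℝ} (hδ : 0 < δ) : ∃ ρ : ℝ, 0 < ρ ∧ ∀ w q : ℂ, ‖q - 1‖ ≤ ρ →
    |(|2 * (w * q).re|) ^ (2 * k) - |2 * w.re| ^ (2 * k)| ≤ δ * ‖w‖ ^ (2 * k) := by
  have hcont : Continuous (fun x : ℝ => |x| ^ (2 * k)) :=
    continuous_abs.rpow_const fun x => Or.inr (by positivity)
  have huc := (isCompact_Icc (a := (-4 : ℝ)) (b := 4)).uniformContinuousOn_of_continuous
    hcont.continuousOn
  obtain ⟨ρ, hρ, hu⟩ := Metric.uniformContinuousOn_iff.1 huc δ hδ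
  refine ⟨min (ρ / 4) 1, lt_min (by positivity) one_pos, fun w q hq => ?_⟩
  have hk2 : (2 * k) ≠ 0 := by positivity
  by_cases hw : w = 0
  · subst hw
    simp [Real.zero_rpow hk2]
  have hw0 : 0 < ‖w‖ := norm_pos_iff.2 hw
  set u : ℂ := w / (‖w‖ : ℂ) with hu'
  have hun : ‖u‖ = 1 := by
    rw [hu', norm_div, Complex.norm_real, norm_norm, div_self hw0.ne']
  have hwu : w = (‖w‖ : ℂ) * u := by
    rw [hu', mul_div_cancel₀ _ (by exact_mod_cast hw0.ne')]
  have hq1 : ‖q - 1‖ ≤ ρ / 4 := hq.trans (min_le_left _ _)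
  have hq2 : ‖q - 1‖ ≤ 1 := hq.trans (min_le_right _ _)
  have hqn : ‖q‖ ≤ 2 := by
    have : q = (q - 1) + 1 := by ring
    rw [this]
    refine (norm_add_le _ _).trans ?_
    rw [norm_one]; linarith
  have e1 : (w * q).re = ‖w‖ * (u * q).re := by
    conv_lhs => rw [hwu, mul_assoc]
    rw [Complex.re_ofReal_mul]
  have e2 : w.re = ‖w‖ * u.re := by
    conv_lhs => rw [hwu]
    rw [Complex.re_ofReal_mul]
  have e3 : |2 * (w * q).re| ^ (2 * k) = ‖w‖ ^ (2 * k) * |2 * (u * q).re| ^ (2 * k) := by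
    rw [e1, show 2 * (‖w‖ * (u * q).re) = ‖w‖ * (2 * (u * q).re) by ring, abs_mul, abs_of_pos hw0,
      Real.mul_rpow hw0.le (abs_nonneg _)]
  have e4 : |2 * w.re| ^ (2 * k) = ‖w‖ ^ (2 * k) * |2 * u.re| ^ (2 * k) := by
    rw [e2, show 2 * (‖w‖ * u.re) = ‖w‖ * (2 * u.re) by ring, abs_mul, abs_of_pos hw0,
      Real.mul_rpow hw0.le (abs_nonneg _)]
  have hwk : 0 ≤ ‖w‖ ^ (2 * k) := Real.rpow_nonneg hw0.le _
  rw [e3, e4, ← mul_sub, abs_mul, abs_of_nonneg hwk, mul_comm δ]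
  refine mul_le_mul_of_nonneg_left ?_ hwk
  have hure : |u.re| ≤ 1 := (Complex.abs_re_le_norm u).trans hun.le
  have huq : |(u * q).re| ≤ 2 := by
    refine (Complex.abs_re_le_norm _).trans ?_
    rw [norm_mul, hun, one_mul]
    exact hqn
  have hd : |(u * q).re - u.re| ≤ ρ / 4 := by
    rw [← Complex.sub_re]
    refine (Complex.abs_re_le_norm _).trans ?_
    rw [show u * q - u = u * (q - 1) by ring, norm_mul, hun, one_mul]
    exact hq1
  have h1 := hu (2 * (u * q).re) ?_ (2 * u.re) ?_ ?_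
  · rw [Real.dist_eq] at h1
    exact h1.le
  · rw [Set.mem_Icc]
    have := abs_le.1 huq
    constructor <;> linarith [this.1, this.2]
  · rw [Set.mem_Icc]
    have := abs_le.1 hure
    constructor <;> linarith [this.1, this.2]
  · rw [Real.dist_eq, ← mul_sub, abs_mul, abs_of_pos (by norm_num : (0 : ℝ) < 2)]
    linarith

end STPH

open STPH in
theorem pSTPH (hMUL : S_MUL) : S_STPH := by
  intro k η hk hη hη1 δ hδ
  obtain ⟨ρ, hρ, hkey⟩ := key hk hδ
  have hlim : Tendsto (fun i : ℕ => 4 * (i : ℝ) ^ (-(η / 4))) atTop (𝓝 (4 * 0)) :=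
    ((tendsto_rpow_neg_atTop (by positivity : 0 < η / 4)).comp
      tendsto_natCast_atTop_atTop).const_mul 4
  rw [mul_zero] at hlim
  have hlog : 0 < Real.log (1 + ρ) := Real.log_pos (by linarith)
  have hpos : 0 < Real.log (1 + ρ) / 2 := by positivity
  obtain ⟨i₀, hi₀⟩ := (hlim.eventually (gt_mem_nhds hpos)).exists_forall_of_atTop
  refine ⟨max i₀ 4, fun i hi y hgy hy θ t => ?_⟩
  have hi4 : 4 ≤ i := (le_max_right _ _).trans hi
  have hi1 : 1 ≤ i := by omega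
  have hsmall := hi₀ i ((le_max_left _ _).trans hi)
  have hsum := EP.STEP.sum_le hη hη1 hi1 hy
  set Sr : ℝ := ∑ n ∈ Ioc (gr η i) y, (n : ℝ) ^ (-(1 / 2 : ℝ)) with hS
  have hi4R : (4 : ℝ) ≤ i := by exact_mod_cast hi4
  obtain ⟨hpr, hdis⟩ := EP.STEP.pr_union hgy
  set q : ℂ := ∏ p ∈ (Ioc (gr η i) y).filter Nat.Prime, (1 - zp θ t p)⁻¹ with hq
  have hEU : EU θ y t = EU θ (gr η i) t * q := by
    unfold EU
    rw [hpr, prod_union hdis]
  have hz : ∀ p ∈ (Ioc (gr η i) y).filter Nat.Prime,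
      ‖(1 - zp θ t p)⁻¹ - 1‖ ≤ 2 * (p : ℝ) ^ (-(1 / 2 : ℝ)) := by
    intro p hp
    rw [mem_filter, mem_Ioc] at hp
    have hzn := EP.STEP.norm_zp hMUL θ t hp.2.pos
    have h2 : (4 : ℝ) ≤ p := by
      have h3 : (i : ℝ) ^ (2 - η / 2) < (gr η i : ℝ) + 1 := by
        unfold gr
        exact Nat.lt_floor_add_one _
      have h4 : (gr η i : ℝ) + 1 ≤ p := by exact_mod_cast hp.1.1
      have h5 : (i : ℝ) ≤ (i : ℝ) ^ (2 - η / 2) := by
        conv_lhs => rw [← Real.rpow_one (i : ℝ)]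
        exact Real.rpow_le_rpow_of_exponent_le (by linarith) (by linarith)
      linarith
    have h3 : (p : ℝ) ^ (-(1 / 2 : ℝ)) ≤ 1 / 2 := by
      have h3' : (p : ℝ) ^ (-(1 / 2 : ℝ)) ≤ (4 : ℝ) ^ (-(1 / 2 : ℝ)) :=
        Real.rpow_le_rpow_of_nonpos (by norm_num) h2 (by norm_num)
      refine h3'.trans (le_of_eq ?_)
      rw [Real.rpow_neg (by norm_num), ← Real.sqrt_eq_rpow,
        show (4 : ℝ) = 2 ^ 2 by norm_num, Real.sqrt_sq (by norm_num)]
      norm_num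
    have h4 : 1 / 2 ≤ ‖1 - zp θ t p‖ := by
      have h5 := norm_sub_norm_le (1 : ℂ) (zp θ t p)
      rw [norm_one, hzn] at h5
      linarith
    have h5 : (1 - zp θ t p) ≠ 0 := by
      intro h0
      rw [h0, norm_zero] at h4
      linarith
    have h6 : (1 - zp θ t p)⁻¹ - 1 = zp θ t p * (1 - zp θ t p)⁻¹ := by
      field_simp
      ring
    rw [h6, norm_mul, hzn, norm_inv, mul_comm]
    have h7 : ‖1 - zp θ t p‖⁻¹ ≤ 2 := by
      rw [inv_le_comm₀ (by linarith) (by norm_num)]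
      linarith
    exact mul_le_mul_of_nonneg_right h7 (Real.rpow_nonneg (Nat.cast_nonneg _) _)
  have hq1 : ‖q - 1‖ ≤ ρ := by
    have h1 : q = ∏ p ∈ (Ioc (gr η i) y).filter Nat.Prime, (1 + ((1 - zp θ t p)⁻¹ - 1)) := by
      rw [hq]
      refine Finset.prod_congr rfl fun p _ => ?_
      ring
    rw [h1]
    refine (Finset.norm_prod_one_add_sub_one_le _ _).trans ?_
    have h2 : ∑ p ∈ (Ioc (gr η i) y).filter Nat.Prime, ‖(1 - zp θ t p)⁻¹ - 1‖ ≤ 2 * Sr := by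
      refine (Finset.sum_le_sum hz).trans ?_
      rw [← Finset.mul_sum]
      refine mul_le_mul_of_nonneg_left ?_ (by norm_num)
      exact Finset.sum_le_sum_of_subset_of_nonneg (filter_subset _ _) fun n _ _ => by positivity
    have h3 : 2 * Sr ≤ Real.log (1 + ρ) := by linarith
    have h4 : Real.exp (∑ p ∈ (Ioc (gr η i) y).filter Nat.Prime, ‖(1 - zp θ t p)⁻¹ - 1‖) ≤ 1 + ρ := by
      rw [← Real.exp_log (show (0 : ℝ) < 1 + ρ by linarith)]
      exact Real.exp_le_exp.2 (h2.trans h3)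
    linarith
  have hmain := hkey (Complex.exp (fi t * Complex.I) * EU θ (gr η i) t) q hq1
  have hnorm : ‖Complex.exp (fi t * Complex.I) * EU θ (gr η i) t‖ = ‖EU θ (gr η i) t‖ := by
    rw [norm_mul, Complex.norm_exp_ofReal_mul_I, one_mul]
  rw [hnorm] at hmain
  have e1 : H θ y t = 2 * (Complex.exp (fi t * Complex.I) * EU θ (gr η i) t * q).re := by
    unfold H
    rw [hEU, mul_assoc]
  have e2 : H θ (gr η i) t = 2 * (Complex.exp (fi t * Complex.I) * EU θ (gr η i) t).re := rfl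
  rw [e1, e2]
  exact hmain

end Pool.Agent.T2H98.EF
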