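import Pool.Agent.T2H98.EF.Stm
import Pool.Agent.T2H98.EP.TP

set_option autoImplicit false

open MeasureTheory Filter Topology Finset

namespace Pool.Agent.T2H98.EF

open Pool.Agent.T2H98.RT (P tw S_MUL S_OR S_AE)
open Pool.Agent.T2H98.EP (pr zp EU JE AA MK gr S_JME S_AAL S_GRE S_STEP S_INTTE S_INTNE S_MER)
open Pool.Agent.H306R2 (lc dv aF)

namespace TPC

lemma cpow_eq (t : ℝ) {n : ℕ} (hn : 0 < n) :
    (n : ℂ) ^ (-(1 / 2 : ℂ) - t * Complex.I) =
      ((1 / Real.sqrt n : ℝ) : ℂ) * Complex.exp (-(t * Real.log n * Complex.I)) := by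
  have hp0 : (0 : ℝ) < n := by exact_mod_cast hn
  have hpc : (n : ℂ) ≠ 0 := by exact_mod_cast hn.ne'
  rw [sub_eq_add_neg, Complex.cpow_add _ _ hpc]
  congr 1
  · have h1 : (1 / Real.sqrt n : ℝ) = (n : ℝ) ^ (-(1 / 2) : ℝ) := by
      rw [Real.rpow_neg hp0.le, Real.sqrt_eq_rpow, one_div]
    rw [h1, Complex.ofReal_cpow hp0.le]
    push_cast
    rfl
  · rw [Complex.cpow_def_of_ne_zero hpc]
    congr 1
    have h2 : Complex.log (n : ℂ) = ((Real.log n : ℝ) : ℂ) := by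
      rw [Complex.ofReal_log hp0.le]
      norm_num
    rw [h2]
    ring

end TPC

theorem pTPC (hMUL : S_MUL) : S_TPC := by
  intro θ a y K t
  have h0 : ∑ n ∈ (MK y K).divisors, (dv a n : ℂ) * tw θ n * (n : ℂ) ^ (-(1 / 2 : ℂ) - t * Complex.I) =
      ∑ d ∈ (MK y K).divisors, EP.TP.hA θ a t d := by
    refine sum_congr rfl fun n hn => ?_
    have hn0 : 0 < n := Nat.pos_of_mem_divisors hn
    rw [TPC.cpow_eq t hn0, EP.TP.hA_apply]
    unfold EP.TP.h
    push_cast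
    ring
  have h2 : ((EP.TP.hA θ a t) * (ArithmeticFunction.zeta : ArithmeticFunction ℂ)) (MK y K) =
      ∑ d ∈ (MK y K).divisors, EP.TP.hA θ a t d := ArithmeticFunction.coe_mul_zeta_apply
  have h3 : ((EP.TP.hA θ a t) * (ArithmeticFunction.zeta : ArithmeticFunction ℂ)).IsMultiplicative :=
    (EP.TP.hA_mult hMUL θ a t).mul ArithmeticFunction.isMultiplicative_zeta.natCast
  rw [h0, ← h2]
  unfold TR MK
  rw [h3.map_prod (fun p => p ^ K)]
  · refine prod_congr rfl fun p hp => ?_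
    have hp1 : p.Prime := (mem_filter.1 hp).2
    rw [ArithmeticFunction.coe_mul_zeta_apply, Nat.divisors_prime_pow hp1, sum_map]
    refine sum_congr rfl fun m _ => ?_
    simp only [Function.Embedding.coeFn_mk]
    rw [EP.TP.hA_apply, EP.TP.h_pow hMUL θ a t hp1]
  · intro p hp q hq hpq
    have hp1 : p.Prime := (mem_filter.1 (mem_coe.1 hp)).2
    have hq1 : q.Prime := (mem_filter.1 (mem_coe.1 hq)).2
    exact Nat.Coprime.pow _ _ ((Nat.coprime_primes hp1 hq1).2 hpq)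

end Pool.Agent.T2H98.EF
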