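import Pool.Agent.T2H98.EF.Stm

/-! Project EF, package TRIG -/

set_option autoImplicit false

open MeasureTheory Filter Topology Finset

namespace Pool.Agent.T2H98.EF

namespace TRIG

/-- the function `‖1 + z‖^{2k}` on the circle -/
noncomputable def F (k : ℝ) (hk : 0 < k) : C(UnitAddCircle, ℂ) :=
  ⟨fun t => ((‖(1 : ℂ) + fourier 1 t‖ ^ (2 * k) : ℝ) : ℂ), by
    refine Complex.continuous_ofReal.comp ?_
    refine Continuous.rpow_const ?_ (fun x => Or.inr (by positivity))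
    exact (continuous_const.add (fourier (T := 1) 1).continuous).norm⟩

lemma exp_arg {w : ℂ} (hw : w ≠ 0) : w / (‖w‖ : ℂ) = Complex.exp (Complex.arg w * Complex.I) := by
  have h0 : (‖w‖ : ℂ) ≠ 0 := by
    rw [Ne, Complex.ofReal_eq_zero, norm_eq_zero]
    exact hw
  rw [div_eq_iff h0, mul_comm]
  exact (Complex.norm_mul_exp_arg_mul_I w).symm

lemma fourier_eq {w : ℂ} (hw : w ≠ 0) (m : ℤ) :
    (fourier m (((Complex.arg w / Real.pi : ℝ)) : UnitAddCircle) : ℂ) = (w / (‖w‖ : ℂ)) ^ (2 * m) := by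
  rw [exp_arg hw, ← Complex.exp_int_mul, fourier_coe_apply]
  congr 1
  have : (Real.pi : ℂ) ≠ 0 := by exact_mod_cast Real.pi_ne_zero
  push_cast
  field_simp

lemma norm_one_add (u : ℂ) (hu : ‖u‖ = 1) : ‖1 + u ^ (2 : ℤ)‖ = |2 * u.re| := by
  have h1 : u * (starRingEnd ℂ) u = 1 := by
    rw [Complex.mul_conj, Complex.normSq_eq_norm_sq, hu]
    norm_num
  have h2 : 1 + u ^ (2 : ℤ) = u * ((2 * u.re : ℝ) : ℂ) := by
    have h3 : ((2 * u.re : ℝ) : ℂ) = u + (starRingEnd ℂ) u := by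
      rw [Complex.add_conj]
    rw [h3, mul_add, h1, zpow_ofNat]
    ring
  rw [h2, norm_mul, hu, one_mul, Complex.norm_real, Real.norm_eq_abs]

lemma part1 (k ε : ℝ) (hk : 0 < k) (hε : 0 < ε) : ∃ (M : ℕ) (g : ℤ → ℂ),
    ∀ w : ℂ, w ≠ 0 → ‖((|2 * w.re| ^ (2 * k) : ℝ) : ℂ) - ∑ m ∈ Icc (-(M : ℤ)) M, g m * pw k m w‖ ≤
      ε * ‖w‖ ^ (2 * k) := by
  have hmem : F k hk ∈ (Submodule.span ℂ (Set.range (@fourier 1))).topologicalClosure := by
    rw [span_fourier_closure_eq_top]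
    trivial
  obtain ⟨Q, hQ, hd⟩ := Metric.mem_closure_iff.1 hmem ε hε
  obtain ⟨c, hc⟩ := Finsupp.mem_span_range_iff_exists_finsupp.1 hQ
  refine ⟨c.support.sup Int.natAbs, c, fun w hw => ?_⟩
  have hsub : c.support ⊆ Icc (-((c.support.sup Int.natAbs : ℕ) : ℤ)) (c.support.sup Int.natAbs : ℕ) := by
    intro m hm
    have h1 : m.natAbs ≤ c.support.sup Int.natAbs := Finset.le_sup (f := Int.natAbs) hm
    rw [mem_Icc]
    omega
  have hsum : ∑ m ∈ Icc (-((c.support.sup Int.natAbs : ℕ) : ℤ)) (c.support.sup Int.natAbs : ℕ), c m * pw k m w =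
      ∑ m ∈ c.support, c m * pw k m w := by
    refine (Finset.sum_subset hsub fun m _ hm => ?_).symm
    rw [Finsupp.notMem_support_iff.1 hm, zero_mul]
  rw [hsum]
  have hn0 : 0 < ‖w‖ := norm_pos_iff.2 hw
  set t : UnitAddCircle := ((Complex.arg w / Real.pi : ℝ) : UnitAddCircle) with ht
  have hQt : Q t = ∑ m ∈ c.support, c m * (w / (‖w‖ : ℂ)) ^ (2 * m) := by
    rw [← hc, Finsupp.sum, ContinuousMap.sum_apply]
    refine Finset.sum_congr rfl fun m _ => ?_
    rw [ContinuousMap.smul_apply, smul_eq_mul, ht, fourier_eq hw]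
  have hFt : F k hk t = ((‖(1 : ℂ) + (w / (‖w‖ : ℂ)) ^ (2 * (1 : ℤ))‖ ^ (2 * k) : ℝ) : ℂ) := by
    rw [← fourier_eq hw 1]
    rfl
  have hu : ‖w / (‖w‖ : ℂ)‖ = 1 := by
    rw [norm_div, Complex.norm_real, norm_norm]
    exact div_self hn0.ne'
  have hre : (w / (‖w‖ : ℂ)).re = w.re / ‖w‖ := Complex.div_ofReal_re w ‖w‖
  have hF2 : ((‖w‖ ^ (2 * k) : ℝ) : ℂ) * F k hk t = ((|2 * w.re| ^ (2 * k) : ℝ) : ℂ) := by
    rw [hFt, mul_one, norm_one_add _ hu, hre, ← Complex.ofReal_mul]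
    congr 1
    rw [← Real.mul_rpow hn0.le (abs_nonneg _)]
    congr 1
    rw [← abs_of_pos hn0, ← abs_mul, abs_of_pos hn0]
    congr 1
    field_simp
  have hQ2 : ((‖w‖ ^ (2 * k) : ℝ) : ℂ) * Q t = ∑ m ∈ c.support, c m * pw k m w := by
    rw [hQt, Finset.mul_sum]
    refine Finset.sum_congr rfl fun m _ => ?_
    unfold pw
    ring
  rw [← hF2, ← hQ2, ← mul_sub, norm_mul, Complex.norm_real, Real.norm_of_nonneg (by positivity), mul_comm]
  refine mul_le_mul_of_nonneg_right ?_ (by positivity)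
  rw [← dist_eq_norm]
  exact (ContinuousMap.dist_apply_le_dist t).trans hd.le

lemma int_exp (m : ℤ) (hm : m ≠ 0) :
    ∫ x in (0:ℝ)..(2 * Real.pi), Complex.exp ((x : ℂ) * Complex.I) ^ (2 * m) = 0 := by
  have h1 : ∀ x : ℝ, Complex.exp ((x : ℂ) * Complex.I) ^ (2 * m) = Complex.exp ((2 * m * Complex.I) * x) := by
    intro x
    rw [← Complex.exp_int_mul]
    congr 1
    push_cast
    ring
  simp_rw [h1]
  have hne : (2 * (m : ℂ) * Complex.I) ≠ 0 := by
    have : (m : ℂ) ≠ 0 := by exact_mod_cast hm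
    simp [this]
  rw [integral_exp_mul_complex hne]
  have h2 : Complex.exp (2 * (m : ℂ) * Complex.I * ((2 * Real.pi : ℝ) : ℂ)) = 1 := by
    rw [Complex.exp_eq_one_iff]
    exact ⟨2 * m, by push_cast; ring⟩
  rw [h2]
  simp

end TRIG

open TRIG in
theorem pTRIG : S_TRIG := by
  intro k ε hk hε
  obtain ⟨M, g, hg⟩ := part1 k ε hk hε
  refine ⟨M, g, hg, ?_⟩
  have hpi := Real.pi_pos
  have hpw : ∀ (m : ℤ) (x : ℝ), pw k m (Complex.exp ((x : ℂ) * Complex.I)) =
      Complex.exp ((x : ℂ) * Complex.I) ^ (2 * m) := by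
    intro m x
    unfold pw
    rw [Complex.norm_exp_ofReal_mul_I]
    simp
  have hb : ∀ x : ℝ, ‖((|2 * Real.cos x| ^ (2 * k) : ℝ) : ℂ) -
      ∑ m ∈ Icc (-(M : ℤ)) M, g m * Complex.exp ((x : ℂ) * Complex.I) ^ (2 * m)‖ ≤ ε := by
    intro x
    have h := hg (Complex.exp ((x : ℂ) * Complex.I)) (Complex.exp_ne_zero _)
    simp only [hpw] at h
    rw [Complex.norm_exp_ofReal_mul_I, Real.one_rpow, mul_one, Complex.exp_ofReal_mul_I_re] at h
    exact h
  have hc1 : Continuous fun x : ℝ => ((|2 * Real.cos x| ^ (2 * k) : ℝ) : ℂ) := by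
    refine Complex.continuous_ofReal.comp ?_
    refine Continuous.rpow_const (by fun_prop) (fun x => Or.inr (by positivity))
  have hc2 : ∀ m : ℤ, Continuous fun x : ℝ => g m * Complex.exp ((x : ℂ) * Complex.I) ^ (2 * m) := by
    intro m
    refine continuous_const.mul ?_
    refine Continuous.zpow₀ (by fun_prop) _ (fun x => Or.inl (Complex.exp_ne_zero _))
  have hint : ∫ x in (0:ℝ)..(2 * Real.pi), (((|2 * Real.cos x| ^ (2 * k) : ℝ) : ℂ) -
      ∑ m ∈ Icc (-(M : ℤ)) M, g m * Complex.exp ((x : ℂ) * Complex.I) ^ (2 * m)) =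
      2 * Real.pi * cc k - 2 * Real.pi * g 0 := by
    rw [intervalIntegral.integral_sub (hc1.intervalIntegrable _ _)
      ((continuous_finsetSum _ fun m _ => hc2 m).intervalIntegrable _ _),
      intervalIntegral.integral_finsetSum (fun m _ => (hc2 m).intervalIntegrable _ _)]
    congr 1
    · rw [intervalIntegral.integral_ofReal]
      unfold cc
      push_cast
      have : (Real.pi : ℂ) ≠ 0 := by exact_mod_cast Real.pi_ne_zero
      field_simp
    · rw [Finset.sum_eq_single (0 : ℤ)]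
      · rw [intervalIntegral.integral_const_mul]
        simp
        ring
      · intro m _ hm
        rw [intervalIntegral.integral_const_mul, int_exp m hm, mul_zero]
      · intro h
        exact absurd (mem_Icc.2 ⟨by omega, by omega⟩) h
  have hnorm := intervalIntegral.norm_integral_le_of_norm_le_const (a := 0) (b := 2 * Real.pi)
    (f := fun x : ℝ => ((|2 * Real.cos x| ^ (2 * k) : ℝ) : ℂ) -
      ∑ m ∈ Icc (-(M : ℤ)) M, g m * Complex.exp ((x : ℂ) * Complex.I) ^ (2 * m)) (C := ε) (fun x _ => hb x)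
  rw [hint, sub_zero, abs_of_pos (by positivity)] at hnorm
  have h3 : (2 * Real.pi * cc k - 2 * Real.pi * g 0 : ℂ) = -(((2 * Real.pi : ℝ) : ℂ) * (g 0 - cc k)) := by
    push_cast
    ring
  rw [h3, norm_neg, norm_mul, Complex.norm_real, Real.norm_of_nonneg (by positivity), mul_comm ε] at hnorm
  exact le_of_mul_le_mul_left hnorm (by positivity)

end Pool.Agent.T2H98.EF
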