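import Pool.Agent.T2H98.EF.Stm

/-! Package VARM of project EF (helper98), by helper94. -/

set_option autoImplicit false

open MeasureTheory Filter Topology Finset

namespace Pool.Agent.T2H98.EF

open Pool.Agent.T2H98.RT (P tw S_MUL S_OR S_AE)
open Pool.Agent.T2H98.EP (pr zp EU JE AA MK gr S_JME S_AAL S_GRE S_STEP S_INTTE S_INTNE S_MER)
open Pool.Agent.T2H98.RS (fi S_VG S_VDC)
open Pool.Agent.H306R2 (lc dv aF)

namespace VARM

lemma fi_meas : Measurable fi := by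
  unfold Pool.Agent.T2H98.RS.fi
  exact ((measurable_id.div_const 2).mul
    (Real.measurable_log.comp (measurable_id.div_const _))).sub_const _

/-- the oscillating factor -/
noncomputable def os (m : ℤ) (L t : ℝ) : ℂ :=
  Complex.exp (((2 * m * fi t - t * L : ℝ) : ℂ) * Complex.I)

lemma os_norm (m : ℤ) (L t : ℝ) : ‖os m L t‖ = 1 := Complex.norm_exp_ofReal_mul_I _

lemma os_meas (m : ℤ) (L : ℝ) : Measurable (os m L) := by
  unfold os
  have h1 : Measurable (fun t : ℝ => 2 * (m : ℝ) * fi t - t * L) :=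
    (measurable_const.mul fi_meas).sub (measurable_id.mul_const L)
  exact Complex.measurable_exp.comp ((Complex.measurable_ofReal.comp h1).mul_const _)

lemma ii {f : ℝ → ℂ} (hf : Measurable f) {B : ℝ} (hB : ∀ t, ‖f t‖ ≤ B) (a b : ℝ) :
    IntervalIntegrable f volume a b := by
  rw [intervalIntegrable_iff]
  refine Measure.integrableOn_of_bounded (M := B) ?_ hf.aestronglyMeasurable
    (Filter.Eventually.of_forall fun t => hB t)
  rw [Set.uIoc]
  exact measure_Ioc_lt_top.ne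

lemma int_os {Cv : ℝ} (hV : ∀ (h : ℤ) (L a b T : ℝ), h ≠ 0 → 0 < a → a ≤ b → b ≤ T →
    ‖∫ t in a..b, Complex.exp (((2 * h * fi t - t * L : ℝ) : ℂ) * Complex.I)‖ ≤ Cv * Real.sqrt T)
    (m : ℤ) (hm : m ≠ 0) (L T : ℝ) (hT : 0 < T) :
    ‖∫ t in (0 : ℝ)..T, os m L t‖ ≤ Cv * Real.sqrt T := by
  refine le_of_forall_pos_le_add fun ε hε => ?_
  obtain ⟨a, ha0, haT, haε⟩ : ∃ a : ℝ, 0 < a ∧ a ≤ T ∧ a ≤ ε :=
    ⟨min T ε, lt_min hT hε, min_le_left _ _, min_le_right _ _⟩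
  have i1 := ii (os_meas m L) (fun t => (os_norm m L t).le) 0 a
  have i2 := ii (os_meas m L) (fun t => (os_norm m L t).le) a T
  rw [← intervalIntegral.integral_add_adjacent_intervals i1 i2]
  refine (norm_add_le _ _).trans ?_
  have h1 : ‖∫ t in (0 : ℝ)..a, os m L t‖ ≤ 1 * |a - 0| :=
    intervalIntegral.norm_integral_le_of_norm_le_const fun t _ => (os_norm m L t).le
  rw [sub_zero, abs_of_pos ha0, one_mul] at h1
  have h2 := hV m L a T T hm ha0 haT le_rfl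
  have h3 : ‖∫ t in a..T, os m L t‖ ≤ Cv * Real.sqrt T := h2
  linarith

lemma cpow_eq (t : ℝ) (m : ℕ) (hm : m ≠ 0) : (m : ℂ) ^ (-(1 / 2 : ℂ) - t * Complex.I) =
    ((1 / Real.sqrt m : ℝ) : ℂ) * Complex.exp (-(t * Real.log m * Complex.I)) := by
  have hm' : (m : ℂ) ≠ 0 := by exact_mod_cast hm
  have hmr : (0 : ℝ) < m := by exact_mod_cast Nat.pos_of_ne_zero hm
  have h1 : (1 / Real.sqrt m : ℝ) = Real.exp (-(Real.log m / 2)) := by
    rw [Real.exp_neg, one_div]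
    congr 1
    rw [Real.sqrt_eq_rpow, Real.rpow_def_of_pos hmr]
    congr 1
    ring
  rw [h1, Complex.cpow_def_of_ne_zero hm', ← Complex.natCast_log, Complex.ofReal_exp, ← Complex.exp_add]
  congr 1
  push_cast
  ring

/-- the real coefficient of a pair -/
noncomputable def co (k : ℝ) (m : ℤ) (q : ℕ × ℕ) : ℝ :=
  dv (k + m) q.1 * dv (k - m) q.2 / Real.sqrt ((q.1 : ℝ) * q.2)

lemma prod_eq (hTPC : S_TPC) (θ : ℕ → ℝ) (k : ℝ) (m : ℤ) (y K : ℕ) (t : ℝ) :
    Complex.exp (((2 * m * fi t : ℝ) : ℂ) * Complex.I) *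
      (TR θ (k + m) y K t * (starRingEnd ℂ) (TR θ (k - m) y K t)) =
    ∑ q ∈ (MK y K).divisors ×ˢ (MK y K).divisors,
      (co k m q : ℂ) * os m (Real.log q.1 - Real.log q.2) t *
        (tw θ q.1 * (starRingEnd ℂ) (tw θ q.2)) := by
  rw [hTPC, hTPC, map_sum, Finset.sum_mul_sum, ← Finset.sum_product', Finset.mul_sum]
  refine Finset.sum_congr rfl fun q hq => ?_
  have h1 : q.1 ≠ 0 := (Nat.pos_of_mem_divisors (Finset.mem_product.mp hq).1).ne'
  have h2 : q.2 ≠ 0 := (Nat.pos_of_mem_divisors (Finset.mem_product.mp hq).2).ne'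
  rw [cpow_eq t _ h1, cpow_eq t _ h2]
  simp only [map_mul, Complex.conj_ofReal]
  rw [← Complex.exp_conj]
  have h3 : (starRingEnd ℂ) (-((t : ℂ) * (Real.log (q.2 : ℝ) : ℂ) * Complex.I)) =
      (t : ℂ) * (Real.log (q.2 : ℝ) : ℂ) * Complex.I := by
    rw [map_neg, map_mul, map_mul, Complex.conj_ofReal, Complex.conj_ofReal, Complex.conj_I]
    ring
  rw [h3]
  have h4 : os m (Real.log q.1 - Real.log q.2) t =
      Complex.exp (((2 * m * fi t : ℝ) : ℂ) * Complex.I) *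
      (Complex.exp (-((t : ℂ) * (Real.log (q.1 : ℝ) : ℂ) * Complex.I)) *
      Complex.exp ((t : ℂ) * (Real.log (q.2 : ℝ) : ℂ) * Complex.I)) := by
    rw [os, ← Complex.exp_add, ← Complex.exp_add]
    congr 1
    push_cast
    ring
  have h5 : (co k m q : ℂ) = (dv (k + m) q.1 : ℂ) * (dv (k - m) q.2 : ℂ) *
      (((1 / Real.sqrt (q.1 : ℝ) : ℝ) : ℂ) * ((1 / Real.sqrt (q.2 : ℝ) : ℝ) : ℂ)) := by
    rw [co, Real.sqrt_mul (Nat.cast_nonneg _)]
    push_cast
    rw [div_eq_mul_inv, mul_inv]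
    ring
  rw [h4, h5]
  ring

/-- the sign -/
noncomputable def sg (x : ℝ) : ℝ := if 0 ≤ x then 1 else -1

lemma sg_mul (x : ℝ) : |x| * sg x = x := by
  unfold sg
  split_ifs with h
  · rw [abs_of_nonneg h, mul_one]
  · rw [abs_of_neg (not_le.mp h)]
    ring

lemma sg_abs (x : ℝ) : |sg x| = 1 := by
  unfold sg
  split_ifs <;> simp

/-- the truncated harmonic -/
noncomputable def CT (θ : ℕ → ℝ) (k : ℝ) (m : ℤ) (y K : ℕ) (T : ℝ) : ℂ :=
  1 / (T : ℂ) * ∫ t in (0:ℝ)..T, Complex.exp (((2 * m * fi t : ℝ) : ℂ) * Complex.I) *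
    (TR θ (k + m) y K t * (starRingEnd ℂ) (TR θ (k - m) y K t))

lemma F_meas (hTPC : S_TPC) (θ : ℕ → ℝ) (k : ℝ) (m : ℤ) (y K : ℕ) :
    Measurable (fun t : ℝ => Complex.exp (((2 * m * fi t : ℝ) : ℂ) * Complex.I) *
      (TR θ (k + m) y K t * (starRingEnd ℂ) (TR θ (k - m) y K t))) := by
  simp only [prod_eq hTPC]
  refine Finset.measurable_sum _ fun q _ => ?_
  exact ((os_meas m _).const_mul _).mul_const _

lemma F_bd (hTPC : S_TPC) (hMUL : S_MUL) (θ : ℕ → ℝ) (k : ℝ) (m : ℤ) (y K : ℕ) (t : ℝ) :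
    ‖Complex.exp (((2 * m * fi t : ℝ) : ℂ) * Complex.I) *
      (TR θ (k + m) y K t * (starRingEnd ℂ) (TR θ (k - m) y K t))‖ ≤
    ∑ q ∈ (MK y K).divisors ×ˢ (MK y K).divisors, |co k m q| := by
  rw [prod_eq hTPC]
  refine (norm_sum_le _ _).trans (Finset.sum_le_sum fun q _ => ?_)
  rw [norm_mul, norm_mul, norm_mul, os_norm, RCLike.norm_conj, hMUL.2.1, hMUL.2.1,
    Complex.norm_real, Real.norm_eq_abs]
  simp

lemma CT_eq (hTPC : S_TPC) (θ : ℕ → ℝ) (k : ℝ) (m : ℤ) (y K : ℕ) (T : ℝ) :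
    CT θ k m y K T = ∑ q ∈ (MK y K).divisors ×ˢ (MK y K).divisors,
      ((|dv (k + m) q.1 * dv (k - m) q.2| / Real.sqrt ((q.1 : ℝ) * q.2) : ℝ) : ℂ) *
      ((sg (dv (k + m) q.1 * dv (k - m) q.2) : ℂ) *
        (1 / (T : ℂ) * ∫ t in (0:ℝ)..T, os m (Real.log q.1 - Real.log q.2) t)) *
      tw θ q.1 * (starRingEnd ℂ) (tw θ q.2) := by
  rw [CT]
  simp only [prod_eq hTPC]
  rw [intervalIntegral.integral_finsetSum, Finset.mul_sum]
  · refine Finset.sum_congr rfl fun q _ => ?_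
    rw [intervalIntegral.integral_mul_const, intervalIntegral.integral_const_mul]
    have h1 : (co k m q : ℂ) =
        ((|dv (k + m) q.1 * dv (k - m) q.2| / Real.sqrt ((q.1 : ℝ) * q.2) : ℝ) : ℂ) *
        (sg (dv (k + m) q.1 * dv (k - m) q.2) : ℂ) := by
      rw [← Complex.ofReal_mul]
      congr 1
      rw [co, div_mul_eq_mul_div, sg_mul]
    rw [h1]
    ring
  · intro q _
    exact ii (((os_meas m _).const_mul _).mul_const _)
      (B := ‖(co k m q : ℂ)‖ * ‖tw θ q.1 * (starRingEnd ℂ) (tw θ q.2)‖)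
      (fun t => by rw [norm_mul, norm_mul, os_norm, mul_one]) _ _

lemma var_CT (hTPC : S_TPC) (hENER : S_ENER) (hVG : S_VG) {Cv : ℝ} (hCv : 0 < Cv)
    (hV : ∀ (h : ℤ) (L a b T : ℝ), h ≠ 0 → 0 < a → a ≤ b → b ≤ T →
    ‖∫ t in a..b, Complex.exp (((2 * h * fi t - t * L : ℝ) : ℂ) * Complex.I)‖ ≤ Cv * Real.sqrt T)
    (k : ℝ) (m : ℤ) (y K : ℕ) (T : ℝ) (hk : 0 < k) (hm : m ≠ 0) (hT : 0 < T) :
    ∫ θ, ‖CT θ k m y K T‖ ^ 2 ∂P ≤ Cv ^ 2 / T * AA (|k + m| + |k - m|) y := by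
  simp only [CT_eq hTPC]
  refine (hVG (ℕ × ℕ) ((MK y K).divisors ×ˢ (MK y K).divisors) Prod.fst Prod.snd
    (fun q => |dv (k + m) q.1 * dv (k - m) q.2| / Real.sqrt ((q.1 : ℝ) * q.2))
    (fun q => (sg (dv (k + m) q.1 * dv (k - m) q.2) : ℂ) *
        (1 / (T : ℂ) * ∫ t in (0:ℝ)..T, os m (Real.log q.1 - Real.log q.2) t)) ?_).trans ?_
  · intro q hq
    exact ⟨(Nat.pos_of_mem_divisors (Finset.mem_product.mp hq).1).ne',
      (Nat.pos_of_mem_divisors (Finset.mem_product.mp hq).2).ne', by positivity⟩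
  · have hK : ∀ q : ℕ × ℕ, ‖(sg (dv (k + m) q.1 * dv (k - m) q.2) : ℂ) *
        (1 / (T : ℂ) * ∫ t in (0:ℝ)..T, os m (Real.log q.1 - Real.log q.2) t)‖ ≤
        Cv / Real.sqrt T := by
      intro q
      rw [norm_mul, norm_mul, Complex.norm_real, Real.norm_eq_abs, sg_abs, one_mul, norm_div,
        norm_one, Complex.norm_real, Real.norm_eq_abs, abs_of_pos hT]
      have h1 := int_os hV m hm (Real.log q.1 - Real.log q.2) T hT
      have h2 : Cv / Real.sqrt T = 1 / T * (Cv * Real.sqrt T) := by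
        have hs : Real.sqrt T ≠ 0 := (Real.sqrt_pos.mpr hT).ne'
        have hs2 : Real.sqrt T * Real.sqrt T = T := Real.mul_self_sqrt hT.le
        rw [div_eq_iff hs]
        calc Cv = 1 / T * (Cv * T) := by field_simp
          _ = 1 / T * (Cv * (Real.sqrt T * Real.sqrt T)) := by rw [hs2]
          _ = _ := by ring
      rw [h2]
      exact mul_le_mul_of_nonneg_left h1 (by positivity)
    have hpos : 0 < |k + m| + |k - m| := by
      have h1 := abs_add_le (k + m) (k - m)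
      have h2 : (k + m) + (k - m) = 2 * k := by ring
      rw [h2, abs_of_pos (by positivity : 0 < 2 * k)] at h1
      linarith
    have hE := hENER (k + m) (k - m) y K hpos
    refine le_trans ?_ (mul_le_mul_of_nonneg_left hE (by positivity : 0 ≤ Cv ^ 2 / T))
    rw [Finset.mul_sum]
    refine Finset.sum_le_sum fun q _ => ?_
    rw [Finset.mul_sum]
    refine Finset.sum_le_sum fun r _ => ?_
    split_ifs with h
    · have h3 : ‖(sg (dv (k + m) q.1 * dv (k - m) q.2) : ℂ) *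
          (1 / (T : ℂ) * ∫ t in (0:ℝ)..T, os m (Real.log q.1 - Real.log q.2) t)‖ *
          ‖(sg (dv (k + m) r.1 * dv (k - m) r.2) : ℂ) *
          (1 / (T : ℂ) * ∫ t in (0:ℝ)..T, os m (Real.log r.1 - Real.log r.2) t)‖ ≤
          Cv / Real.sqrt T * (Cv / Real.sqrt T) :=
        mul_le_mul (hK q) (hK r) (norm_nonneg _) (by positivity)
      have h4 : Cv / Real.sqrt T * (Cv / Real.sqrt T) = Cv ^ 2 / T := by
        rw [div_mul_div_comm, Real.mul_self_sqrt hT.le, sq]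
      rw [h4] at h3
      calc _ ≤ (|dv (k + m) q.1 * dv (k - m) q.2| / Real.sqrt ((q.1 : ℝ) * q.2) *
            (|dv (k + m) r.1 * dv (k - m) r.2| / Real.sqrt ((r.1 : ℝ) * r.2))) * (Cv ^ 2 / T) :=
            mul_le_mul_of_nonneg_left h3 (by positivity)
        _ = _ := by ring
    · rw [mul_zero]

end VARM

open VARM in
theorem pVARM (hTPC : S_TPC) (hCVC : S_CVC) (hENER : S_ENER) (hVG : S_VG) (hVDC : S_VDC)
    (hMUL : S_MUL) : S_VARM := by
  obtain ⟨Cv, hCv, hV⟩ := hVDC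
  refine ⟨2 * Cv ^ 2, by positivity, ?_⟩
  intro k m y T hk hm hT
  -- the approximation
  have happ : ∀ ε : ℝ, 0 < ε → ∃ K : ℕ, ∀ θ : ℕ → ℝ, ‖C θ k m y T - CT θ k m y K T‖ ≤ ε := by
    intro ε hε
    obtain ⟨K₀, hK₀⟩ := hCVC k m y hk ε hε
    refine ⟨K₀, fun θ => ?_⟩
    have hFG : ∀ ε : ℝ, 0 < ε → ∃ K₁ : ℕ, ∀ K : ℕ, K₁ ≤ K → ∀ t : ℝ,
        ‖Complex.exp (((2 * m * fi t : ℝ) : ℂ) * Complex.I) *
          (TR θ (k + m) y K t * (starRingEnd ℂ) (TR θ (k - m) y K t)) -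
          Complex.exp (((2 * m * fi t : ℝ) : ℂ) * Complex.I) * pw k m (EU θ y t)‖ ≤ ε := by
      intro ε hε
      obtain ⟨K₁, hK₁⟩ := hCVC k m y hk ε hε
      refine ⟨K₁, fun K hK t => ?_⟩
      rw [← mul_sub, norm_mul, Complex.norm_exp_ofReal_mul_I, one_mul]
      exact hK₁ K hK θ t
    have hGm : Measurable (fun t : ℝ =>
        Complex.exp (((2 * m * fi t : ℝ) : ℂ) * Complex.I) * pw k m (EU θ y t)) := by
      refine measurable_of_tendsto_metrizable (fun K => F_meas hTPC θ k m y K) ?_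
      rw [tendsto_pi_nhds]
      intro t
      rw [Metric.tendsto_atTop]
      intro ε hε
      obtain ⟨K₁, hK₁⟩ := hFG (ε / 2) (by positivity)
      refine ⟨K₁, fun K hK => ?_⟩
      rw [dist_eq_norm]
      exact (hK₁ K hK t).trans_lt (by linarith)
    have hGb : ∃ B : ℝ, ∀ t : ℝ,
        ‖Complex.exp (((2 * m * fi t : ℝ) : ℂ) * Complex.I) * pw k m (EU θ y t)‖ ≤ B := by
      obtain ⟨K₁, hK₁⟩ := hFG 1 one_pos
      refine ⟨(∑ q ∈ (MK y K₁).divisors ×ˢ (MK y K₁).divisors, |co k m q|) + 1, fun t => ?_⟩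
      have h1 := hK₁ K₁ le_rfl t
      have h2 := F_bd hTPC hMUL θ k m y K₁ t
      have h3 := norm_sub_norm_le
        (Complex.exp (((2 * m * fi t : ℝ) : ℂ) * Complex.I) * pw k m (EU θ y t))
        (Complex.exp (((2 * m * fi t : ℝ) : ℂ) * Complex.I) *
          (TR θ (k + m) y K₁ t * (starRingEnd ℂ) (TR θ (k - m) y K₁ t)))
      rw [norm_sub_rev] at h1
      linarith
    obtain ⟨B, hB⟩ := hGb
    have i1 := ii hGm hB 0 T
    have i2 := ii (F_meas hTPC θ k m y K₀) (F_bd hTPC hMUL θ k m y K₀) 0 T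
    rw [C, CT, ← mul_sub, ← intervalIntegral.integral_sub i1 i2, norm_mul, norm_div, norm_one,
      Complex.norm_real, Real.norm_eq_abs, abs_of_pos hT]
    have h5 : ‖∫ t in (0:ℝ)..T, (Complex.exp (((2 * m * fi t : ℝ) : ℂ) * Complex.I) *
        pw k m (EU θ y t) - Complex.exp (((2 * m * fi t : ℝ) : ℂ) * Complex.I) *
          (TR θ (k + m) y K₀ t * (starRingEnd ℂ) (TR θ (k - m) y K₀ t)))‖ ≤ ε * |T - 0| := by
      refine intervalIntegral.norm_integral_le_of_norm_le_const fun t _ => ?_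
      rw [← mul_sub, norm_mul, Complex.norm_exp_ofReal_mul_I, one_mul, norm_sub_rev]
      exact hK₀ K₀ le_rfl θ t
    rw [sub_zero, abs_of_pos hT] at h5
    calc _ ≤ 1 / T * (ε * T) := mul_le_mul_of_nonneg_left h5 (by positivity)
      _ = ε := by field_simp
  refine le_of_forall_pos_le_add fun η hη => ?_
  obtain ⟨ε, hε, hε1, hεη⟩ : ∃ ε : ℝ, 0 < ε ∧ ε ≤ 1 ∧ 2 * ε ≤ η :=
    ⟨min 1 (η / 2), lt_min one_pos (by positivity), min_le_left _ _, by
      have := min_le_right 1 (η / 2)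
      linarith⟩
  obtain ⟨K, hK⟩ := happ ε hε
  have hvar := var_CT hTPC hENER hVG hCv hV k m y K T hk hm hT
  have hcont : Continuous (fun θ : ℕ → ℝ => CT θ k m y K T) := by
    simp only [CT_eq hTPC]
    refine continuous_finsetSum _ fun q _ => ?_
    exact (continuous_const.mul (hMUL.2.2.2 q.1)).mul
      (Complex.continuous_conj.comp (hMUL.2.2.2 q.2))
  have hbd : ∃ B : ℝ, ∀ θ : ℕ → ℝ, ‖CT θ k m y K T‖ ^ 2 ≤ B := by
    refine ⟨(∑ q ∈ (MK y K).divisors ×ˢ (MK y K).divisors,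
      ‖((|dv (k + m) q.1 * dv (k - m) q.2| / Real.sqrt ((q.1 : ℝ) * q.2) : ℝ) : ℂ) *
      ((sg (dv (k + m) q.1 * dv (k - m) q.2) : ℂ) *
        (1 / (T : ℂ) * ∫ t in (0:ℝ)..T, os m (Real.log q.1 - Real.log q.2) t))‖) ^ 2,
      fun θ => ?_⟩
    refine pow_le_pow_left₀ (norm_nonneg _) ?_ 2
    rw [CT_eq hTPC]
    refine (norm_sum_le _ _).trans (Finset.sum_le_sum fun q _ => ?_)
    rw [norm_mul, norm_mul, RCLike.norm_conj, hMUL.2.1, hMUL.2.1, mul_one, mul_one]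
  obtain ⟨B, hB⟩ := hbd
  have hint : Integrable (fun θ : ℕ → ℝ => ‖CT θ k m y K T‖ ^ 2) P := by
    refine Integrable.of_bound (hcont.norm.pow 2).aestronglyMeasurable B
      (Filter.Eventually.of_forall fun θ => ?_)
    rw [Real.norm_of_nonneg (sq_nonneg _)]
    exact hB θ
  have hmono : ∫ θ, ‖C θ k m y T‖ ^ 2 ∂P ≤ ∫ θ, (2 * ‖CT θ k m y K T‖ ^ 2 + 2 * ε ^ 2) ∂P := by
    refine integral_mono_of_nonneg (Filter.Eventually.of_forall fun θ => sq_nonneg _)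
      ((hint.const_mul 2).add (integrable_const _)) (Filter.Eventually.of_forall fun θ => ?_)
    have h1 : ‖C θ k m y T‖ ≤ ‖CT θ k m y K T‖ + ε := by
      have h2 := norm_sub_norm_le (C θ k m y T) (CT θ k m y K T)
      linarith [hK θ]
    have h3 := norm_nonneg (C θ k m y T)
    have h4 := norm_nonneg (CT θ k m y K T)
    show ‖C θ k m y T‖ ^ 2 ≤ 2 * ‖CT θ k m y K T‖ ^ 2 + 2 * ε ^ 2
    nlinarith [sq_nonneg (‖CT θ k m y K T‖ - ε)]
  rw [integral_add (hint.const_mul 2) (integrable_const _), integral_const_mul, integral_const,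
    probReal_univ, one_smul] at hmono
  have h6 : 2 * ε ^ 2 ≤ η := by nlinarith
  calc _ ≤ 2 * (∫ θ, ‖CT θ k m y K T‖ ^ 2 ∂P) + 2 * ε ^ 2 := hmono
    _ ≤ 2 * (Cv ^ 2 / T * AA (|k + m| + |k - m|) y) + η := by linarith
    _ = _ := by ring

end Pool.Agent.T2H98.EF
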