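import Pool.Agent.T2H98.EP.All
import Pool.Agent.T2H98.RS.VG
import Pool.Agent.T2H98.RS.VDC
import Pool.Agent.T2H98.EF.TRIG
import Pool.Agent.T2H98.EF.TPC
import Pool.Agent.T2H98.EF.CVC
import Pool.Agent.T2H98.EF.ENER
import Pool.Agent.T2H98.EF.VARM
import Pool.Agent.T2H98.EF.MC
import Pool.Agent.T2H98.EF.GRM
import Pool.Agent.T2H98.EF.GRE2
import Pool.Agent.T2H98.EF.JHG
import Pool.Agent.T2H98.EF.INTH
import Pool.Agent.T2H98.EF.STPH
import Pool.Agent.T2H98.EF.INNH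
import Pool.Agent.T2H98.EF.CCG
import Pool.Agent.T2H98.EF.FINH

set_option autoImplicit false

namespace Pool.Agent.T2H98.EF

open Pool.Agent.T2H98.RT (pMUL pOR pAE)
open Pool.Agent.T2H98.EP (vJME pAAL pMER pSTEP pINTTE)
open Pool.Agent.T2H98.RS (pVG pVDC)

theorem vVARM : S_VARM := pVARM (pTPC pMUL) (pCVC pMUL) pENER (pVG pMUL pOR) pVDC pMUL
theorem vMC : S_MC := pMC vJME pMUL
theorem vGRM : S_GRM := pGRM vVARM vMC pMER pAE
theorem vJHG : S_JHG := pJHG pTRIG vGRM pGRE2 vMC pAAL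
theorem vINTH : S_INTH := pINTH pAAL vMC
theorem vINNH : S_INNH := pINNH (pSTPH pMUL) (pSTEP pMUL) pAAL vJME vMC
theorem vFINH : S_FINH := pFINH vJHG pGRE2 vINTH (pINTTE pAAL vJME) vINNH pMER pAAL vMC

end Pool.Agent.T2H98.EF
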