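import Pool.Agent.T2H98.EF.Stm
import Pool.Agent.T2H98.EP.INTNE

/-! Project EF, package INNH: from the grid to all `y`. -/

set_option autoImplicit false

open MeasureTheory Filter Topology Finset

namespace Pool.Agent.T2H98.EF

open Pool.Agent.T2H98.RT (P tw S_MUL S_OR S_AE)
open Pool.Agent.T2H98.EP (pr zp EU JE AA MK gr S_JME S_AAL S_GRE S_STEP S_INTTE S_INTNE S_MER)
open Pool.Agent.T2H98.RS (fi S_VG S_VDC)
open Pool.Agent.H306R2 (lc dv aF)
open Pool.Agent.T2H98.EP.INTNE (gr_mono le_gr exists_i)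

namespace INNH

/-- comparison of the moments of `H` -/
lemma JH_sub (hJME : S_JME) (hMC : S_MC) {θ : ℕ → ℝ} {k : ℝ} (hk : 0 < k) {N M : ℕ} {T δ : ℝ} (hT : 0 < T)
    (h : ∀ t : ℝ, abs (|H θ N t| ^ (2 * k) - |H θ M t| ^ (2 * k)) ≤ δ * ‖EU θ M t‖ ^ (2 * k)) :
    |JH θ k N T - JH θ k M T| ≤ δ * JE θ k M T := by
  have hE : Continuous (fun t : ℝ => ‖EU θ M t‖ ^ (2 * k)) := by
    obtain ⟨B, -, -, hc, -⟩ := hJME k M hk
    exact hc θ
  have hH : ∀ N : ℕ, Continuous (fun t : ℝ => |H θ N t| ^ (2 * k)) := fun N => by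
    obtain ⟨B, -, -, hc, -⟩ := hMC k N hk
    exact ((hc θ).abs).rpow_const fun t => Or.inr (by positivity)
  unfold JH JE
  rw [← mul_sub, ← intervalIntegral.integral_sub ((hH N).intervalIntegrable _ _)
    ((hH M).intervalIntegrable _ _), abs_mul, abs_of_pos (show 0 < 1 / T by positivity)]
  have h1 : |∫ t in (0:ℝ)..T, (|H θ N t| ^ (2 * k) - |H θ M t| ^ (2 * k))| ≤
      ∫ t in (0:ℝ)..T, δ * ‖EU θ M t‖ ^ (2 * k) := by
    refine (intervalIntegral.abs_integral_le_integral_abs hT.le).trans ?_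
    apply intervalIntegral.integral_mono_on hT.le
      ((((hH N).sub (hH M)).abs).intervalIntegrable _ _) ((hE.const_mul _).intervalIntegrable _ _)
    intro t _
    exact h t
  rw [intervalIntegral.integral_const_mul] at h1
  have h2 := mul_le_mul_of_nonneg_left h1 (show 0 ≤ 1 / T by positivity)
  refine h2.trans (le_of_eq ?_)
  ring

end INNH

open INNH

theorem pINNH (hSTPH : S_STPH) (hSTEP : S_STEP) (hAAL : S_AAL) (hJME : S_JME) (hMC : S_MC) : S_INNH := by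
  intro θ k η hk hη hη1 hypH hypE ε hε
  obtain ⟨c, hc⟩ : ∃ c : ℝ, c = cc k := ⟨_, rfl⟩
  rw [← hc] at hypH ⊢
  obtain ⟨δ, hδd⟩ : ∃ δ : ℝ, δ = min (1 / 2) (ε / (3 + |c|)) := ⟨_, rfl⟩
  have hc3 : 0 < 3 + |c| := by positivity
  have hδ0 : 0 < δ := by rw [hδd]; positivity
  have hδ1 : δ ≤ 1 / 2 := by rw [hδd]; exact min_le_left _ _
  have hδ2 : δ * (3 + |c|) ≤ ε := by
    have : δ ≤ ε / (3 + |c|) := by rw [hδd]; exact min_le_right _ _
    rwa [le_div_iff₀ hc3] at this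
  obtain ⟨hA1, hAm, C, hC, hAC⟩ := hAAL k hk
  obtain ⟨δ', hδ'⟩ : ∃ δ' : ℝ, δ' = min δ (Real.log (1 + δ) / C) := ⟨_, rfl⟩
  have hlog : 0 < Real.log (1 + δ) := Real.log_pos (by linarith)
  have hδ'0 : 0 < δ' := by rw [hδ']; exact lt_min hδ0 (div_pos hlog hC)
  obtain ⟨i₀, hi₀⟩ := hSTEP k η hk hη hη1 δ' hδ'0
  obtain ⟨i₁, hi₁⟩ := hSTPH k η hk hη hη1 δ hδ0
  obtain ⟨T₀, hT₀, hTH⟩ := hypH δ hδ0
  obtain ⟨T₁, hT₁, hTE⟩ := hypE δ hδ0
  refine ⟨gr η (max (max i₀ i₁) 3), max T₀ T₁, hT₀.trans (le_max_left _ _), ?_⟩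
  intro T y hTT hyy hyT
  have hTT0 : T₀ ≤ T := (le_max_left _ _).trans hTT
  have hTT1 : T₁ ≤ T := (le_max_right _ _).trans hTT
  have hT0 : 0 < T := by linarith
  obtain ⟨i, hi, hiy, hyi⟩ := exists_i hη1 hyy
  have hii₀ : i₀ ≤ i := ((le_max_left _ _).trans (le_max_left _ _)).trans hi
  have hii₁ : i₁ ≤ i := ((le_max_right _ _).trans (le_max_left _ _)).trans hi
  have hi3 : 3 ≤ gr η i := ((le_max_right (max i₀ i₁) 3).trans hi).trans (le_gr hη1 i)
  obtain ⟨-, hsum⟩ := hi₀ i hii₀ y hiy hyi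
  have hst := hi₁ i hii₁ y hiy hyi θ
  have hiy' : (gr η i : ℝ) ≤ y := by exact_mod_cast hiy
  have hmain := hTH T hTT0 i hi3 (hiy'.trans hyT)
  have hmainE := hTE T hTT1 i hi3 (hiy'.trans hyT)
  have h1 := JH_sub hJME hMC hk hT0 hst
  have h3 : AA k y ≤ (1 + δ) * AA k (gr η i) := by
    refine (hAC (gr η i) y hiy).trans ?_
    rw [mul_comm]
    apply mul_le_mul_of_nonneg_right _ (zero_le_one.trans (hA1 _))
    have h4 : C * ∑ n ∈ Ioc (gr η i) y, 1 / (n : ℝ) ≤ Real.log (1 + δ) := by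
      have h5 : ∑ n ∈ Ioc (gr η i) y, 1 / (n : ℝ) ≤ Real.log (1 + δ) / C :=
        hsum.trans (by rw [hδ']; exact min_le_right _ _)
      rw [le_div_iff₀ hC] at h5
      linarith
    calc Real.exp (C * ∑ n ∈ Ioc (gr η i) y, 1 / (n : ℝ)) ≤ Real.exp (Real.log (1 + δ)) :=
          Real.exp_le_exp.2 h4
      _ = 1 + δ := Real.exp_log (by linarith)
  have hmono : AA k (gr η i) ≤ AA k y := hAm hiy
  obtain ⟨a, ha⟩ : ∃ a : ℝ, a = AA k (gr η i) := ⟨_, rfl⟩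
  obtain ⟨b, hb⟩ : ∃ b : ℝ, b = AA k y := ⟨_, rfl⟩
  have ha0 : 0 ≤ a := by rw [ha]; exact zero_le_one.trans (hA1 _)
  rw [← ha] at hmain hmainE h3 hmono
  rw [← hb] at h3 hmono ⊢
  have hb0 : 0 ≤ b := ha0.trans hmono
  -- bounds
  have hE : JE θ k (gr η i) T ≤ (1 + δ) * a := by
    have := (abs_le.1 hmainE).2
    linarith
  have e1 : |JH θ k y T - JH θ k (gr η i) T| ≤ δ * (3 / 2) * b := by
    refine h1.trans ?_
    have h5 : JE θ k (gr η i) T ≤ (3 / 2) * b := by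
      refine hE.trans ?_
      exact mul_le_mul (by linarith) hmono ha0 (by norm_num)
    calc δ * JE θ k (gr η i) T ≤ δ * ((3 / 2) * b) := mul_le_mul_of_nonneg_left h5 hδ0.le
      _ = δ * (3 / 2) * b := by ring
  have e2 : |JH θ k (gr η i) T - c * a| ≤ δ * b :=
    hmain.trans (mul_le_mul_of_nonneg_left hmono hδ0.le)
  have e3 : |c * a - c * b| ≤ |c| * (δ * b) := by
    rw [← mul_sub, abs_mul]
    apply mul_le_mul_of_nonneg_left _ (abs_nonneg c)
    rw [abs_sub_comm, abs_of_nonneg (by linarith)]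
    have : δ * a ≤ δ * b := mul_le_mul_of_nonneg_left hmono hδ0.le
    linarith
  have e4 : |JH θ k y T - c * b| ≤ |JH θ k y T - JH θ k (gr η i) T| + |JH θ k (gr η i) T - c * a| +
      |c * a - c * b| := by
    have h6 : JH θ k y T - c * b = (JH θ k y T - JH θ k (gr η i) T) + (JH θ k (gr η i) T - c * a) +
      (c * a - c * b) := by ring
    rw [h6]
    exact (abs_add_le _ _).trans (add_le_add (abs_add_le _ _) le_rfl)
  have e5 : δ * (3 / 2) * b + δ * b + |c| * (δ * b) ≤ δ * (3 + |c|) * b := by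
    have : 0 ≤ δ * b := mul_nonneg hδ0.le hb0
    nlinarith
  have e6 : δ * (3 + |c|) * b ≤ ε * b := mul_le_mul_of_nonneg_right hδ2 hb0
  linarith

end Pool.Agent.T2H98.EF
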