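import Pool.Agent.T2H98.EP.Stm
import Pool.Agent.T2H98.RS.Stm

/-!
# Additions to project EP (helper98): MP_973905_nt, Gonek's model with functional equation, real orders

`EU(θ,y,t) = ∏_{p ≤ y} (1 - f(p) p^{-1/2-it})⁻¹` (project EP), `φ(t) = (t/2) log(t/2πe) - π/8` (`RS.fi`),
`H(θ,y,t) = 2 Re (e^{iφ(t)} EU(θ,y,t))` (for `f = 1` the model of Gonek and Keating for the Hardy function). TARGET: for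
every real `k > 0`, almost all `θ`, `(1/T) ∫_T^{2T} |H|^{2k} dt ~ cc(k) a(k) (e^γ log y)^{k²}`, uniformly `y ≤ T^{2-η}`,
`cc(k)` the mean of `|2 cos|^{2k}`. Idea of helper54: `|H|^{2k} = |EU|^{2k} G(phase)`, `G` a uniform limit of trigonometric
polynomials, and the harmonics `m ≠ 0` have square-root cancellation (`RS.VDC`).

All packages of RT, EP, RS are proved (files `Pool/Agent/T2H98/RT,EP,RS/`), import them freely (EP/All.lean, RS/All.lean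
give `vJME`, `vGRE`, ...). Every package here is independent. File `Pool/Agent/T2H98/EF/<ID>.lean`:
`import Pool.Agent.T2H98.EF.Stm`, `namespace Pool.Agent.T2H98.EF`, `theorem p<ID> (h : S_dep) .. : S_<ID>`.
-/

set_option autoImplicit false

open MeasureTheory Filter Topology Finset

namespace Pool.Agent.T2H98.EF

open Pool.Agent.T2H98.RT (P tw S_MUL S_OR S_AE)
open Pool.Agent.T2H98.EP (pr zp EU JE AA MK gr S_JME S_AAL S_GRE S_STEP S_INTTE S_INTNE S_MER)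
open Pool.Agent.T2H98.RS (fi S_VG S_VDC)
open Pool.Agent.H306R2 (lc dv aF)

/-- the twisted Hardy function of the Euler product -/
noncomputable def H (θ : ℕ → ℝ) (y : ℕ) (t : ℝ) : ℝ := 2 * (Complex.exp (fi t * Complex.I) * EU θ y t).re

/-- `(1/T) ∫_0^T |H|^{2k}` -/
noncomputable def JH (θ : ℕ → ℝ) (k : ℝ) (y : ℕ) (T : ℝ) : ℝ := 1 / T * ∫ t in (0:ℝ)..T, |H θ y t| ^ (2 * k)

/-- the mean of `|2 cos x|^{2k}` -/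
noncomputable def cc (k : ℝ) : ℝ := 1 / (2 * Real.pi) * ∫ x in (0:ℝ)..(2 * Real.pi), |2 * Real.cos x| ^ (2 * k)

/-- `|w|^{2k} (w/|w|)^{2m}` -/
noncomputable def pw (k : ℝ) (m : ℤ) (w : ℂ) : ℂ := ((‖w‖ ^ (2 * k) : ℝ) : ℂ) * (w / (‖w‖ : ℂ)) ^ (2 * m)

/-- the harmonic `(1/T) ∫_0^T e^{2imφ} |EU|^{2k} (EU/|EU|)^{2m} dt` -/
noncomputable def C (θ : ℕ → ℝ) (k : ℝ) (m : ℤ) (y : ℕ) (T : ℝ) : ℂ :=
  1 / (T : ℂ) * ∫ t in (0:ℝ)..T, Complex.exp (((2 * m * fi t : ℝ) : ℂ) * Complex.I) * pw k m (EU θ y t)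

/-- truncated `∏_{p ≤ y} (1 - zp)^{-a}` -/
noncomputable def TR (θ : ℕ → ℝ) (a : ℝ) (y K : ℕ) (t : ℝ) : ℂ :=
  ∏ p ∈ pr y, ∑ m ∈ range (K + 1), (lc a m : ℂ) * zp θ t p ^ m

/-- TRIG (25 min, no Deps). With `x = arg w`: `|2 Re w|^{2k} = |w|^{2k} |2 cos x|^{2k}`; the continuous function
`|2 cos x|^{2k} = |1 + e^{2ix}|^{2k}` of `2x` is a uniform limit of trigonometric polynomials in `2x` (Mathlib: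
`span_fourier_closure_eq_top`, or Fejer); the mean of the polynomial is its coefficient `g 0`. -/
def S_TRIG : Prop := ∀ k ε : ℝ, 0 < k → 0 < ε → ∃ (M : ℕ) (g : ℤ → ℂ),
  (∀ w : ℂ, w ≠ 0 → ‖((|2 * w.re| ^ (2 * k) : ℝ) : ℂ) - ∑ m ∈ Icc (-(M : ℤ)) M, g m * pw k m w‖ ≤ ε * ‖w‖ ^ (2 * k)) ∧
  ‖g 0 - (cc k : ℂ)‖ ≤ ε

/-- TPC (20 min, Deps: MUL). EP/TP.lean without the hypothesis on the sign of `a` (it is not used there). -/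
def S_TPC : Prop := ∀ (θ : ℕ → ℝ) (a : ℝ) (y K : ℕ) (t : ℝ),
  TR θ a y K t = ∑ n ∈ (MK y K).divisors, (dv a n : ℂ) * tw θ n * (n : ℂ) ^ (-(1 / 2 : ℂ) - t * Complex.I)

/-- CVC (30 min, Deps: MUL). As EP/CV.lean (`∑ lc(a,m) z^m = (1-z)^{-a} = exp(-a log(1-z))` for `|z| < 1`, all real `a`):
`TR(k+m) conj TR(k-m) → ∏ (1-zp)^{-(k+m)} conj (1-zp)^{-(k-m)} = |EU|^{2k} (EU/|EU|)^{2m}`, uniformly in `(θ,t)`. -/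
def S_CVC : Prop := ∀ (k : ℝ) (m : ℤ) (y : ℕ), 0 < k → ∀ ε : ℝ, 0 < ε → ∃ K₀ : ℕ, ∀ K : ℕ, K₀ ≤ K → ∀ (θ : ℕ → ℝ) (t : ℝ),
  ‖TR θ (k + m) y K t * (starRingEnd ℂ) (TR θ (k - m) y K t) - pw k m (EU θ y t)‖ ≤ ε

/-- ENER (35 min, no Deps). `|dv a n| ≤ dv |a| n`. With `α = |a|`, `β = |b|` the sum is at most
`∑_w (∑_{u v = w, u, v | MK} dv α u dv β v)² / w` (`w = q.1 r.2 = r.1 q.2`, all quotients), the inner sum is `≤ dv (α+β) w`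
(`lc_conv`), `w` runs over divisors of `MK y (2K)`, and `∑_{w | MK y L} dv γ (w)²/w ≤ AA γ y` (EP/SUMC.lean). -/
def S_ENER : Prop := ∀ (a b : ℝ) (y K : ℕ), 0 < |a| + |b| →
  ∑ q ∈ (MK y K).divisors ×ˢ (MK y K).divisors, ∑ r ∈ (MK y K).divisors ×ˢ (MK y K).divisors,
    (if q.1 * r.2 = r.1 * q.2 then
      abs (dv a q.1 * dv b q.2) / Real.sqrt ((q.1 : ℝ) * q.2) * (abs (dv a r.1 * dv b r.2) / Real.sqrt ((r.1 : ℝ) * r.2))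
      else 0) ≤ AA (|a| + |b|) y

/-- VARM (35 min, Deps: TPC, CVC, ENER, VG, VDC, MUL). For fixed `K` the truncated harmonic is
`∑_{(u,v)} dv(k+m) u · dv(k-m) v /√(uv) · κ(u,v) f(u) conj f(v)`, `κ = (1/T)∫_0^T e^{i(2mφ - t(log u - log v))}`,
`|κ| ≤ C T^{-1/2}` by VDC (`a → 0`); VG (`c_i = |..|`, the sign into `K_i`), ENER; `K → ∞` by CVC (uniform). -/
def S_VARM : Prop := ∃ C₀ : ℝ, 0 < C₀ ∧ ∀ (k : ℝ) (m : ℤ) (y : ℕ) (T : ℝ), 0 < k → m ≠ 0 → 0 < T →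
  ∫ θ, ‖C θ k m y T‖ ^ 2 ∂P ≤ C₀ / T * AA (|k + m| + |k - m|) y

/-- MC (20 min, Deps: JME, MUL). `EU` is continuous in `(θ,t)`, nonzero; `|pw| = |EU|^{2k} ≤ B`. -/
def S_MC : Prop := ∀ (k : ℝ) (y : ℕ), 0 < k → ∃ B : ℝ, 0 < B ∧
  (∀ (m : ℤ) (θ : ℕ → ℝ), Continuous (fun t : ℝ => pw k m (EU θ y t))) ∧ (∀ θ : ℕ → ℝ, Continuous (fun t : ℝ => H θ y t)) ∧
  (∀ (m : ℤ) (θ : ℕ → ℝ) (t : ℝ), EU θ y t ≠ 0 ∧ ‖pw k m (EU θ y t)‖ ≤ B) ∧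
  (∀ (m : ℤ) (T : ℝ), 0 < T → Measurable (fun θ : ℕ → ℝ => C θ k m y T) ∧ ∀ θ : ℕ → ℝ, ‖C θ k m y T‖ ≤ B) ∧
  (Measurable fi) ∧ (∀ (m : ℤ) (T : ℝ), IntervalIntegrable (fun t : ℝ => Complex.exp (((2 * m * fi t : ℝ) : ℂ) * Complex.I))
    volume 0 T)

/-- GRM (30 min, Deps: VARM, MC, MER, AE). As EP/GRE.lean, for any large `a` (`a ≥ 16/η`), real and imaginary part; `m`
ranges over a countable set. `AA(γ,y) ≤ C (log y)^C` by MER. -/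
def S_GRM : Prop := ∀ (k η : ℝ) (a : ℕ), 0 < k → 0 < η → η ≤ 1 → 16 / η ≤ a → ∀ᵐ θ ∂P, ∀ m : ℤ, m ≠ 0 →
  ∀ ε : ℝ, 0 < ε → ∀ᶠ j : ℕ in atTop, ∀ i : ℕ, 3 ≤ gr η i → (gr η i : ℝ) ≤ (((j : ℝ) + 1) ^ a) ^ (2 - η) →
    ‖C θ k m (gr η i) ((j : ℝ) ^ a)‖ ≤ ε

/-- GRE2 (15 min). EP/GRE.lean with the exponent `a` explicit (`a = ⌈16/η⌉`; any `a ≥ 16/η` works in its proof). -/
def S_GRE2 : Prop := ∀ (k η : ℝ), 0 < k → 0 < η → η ≤ 1 → ∃ a : ℕ, 16 / η ≤ a ∧ ∀ᵐ θ ∂P,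
  ∀ ε : ℝ, 0 < ε → ∀ᶠ j : ℕ in atTop, ∀ i : ℕ, 3 ≤ gr η i → (gr η i : ℝ) ≤ (((j : ℝ) + 1) ^ a) ^ (2 - η) →
    |JE θ k (gr η i) ((j : ℝ) ^ a) - AA k (gr η i)| ≤ ε

/-- JHG (25 min, Deps: TRIG, GRM, GRE2, MC, AAL). With `w = e^{iφ}EU`: `pw k m w = e^{2imφ} pw k m EU`, so
`|JH - ∑ g_m C_m| ≤ ε JE`, `C_0 = JE`, `g_0 ≈ cc`. -/
def S_JHG : Prop := ∀ (k η : ℝ), 0 < k → 0 < η → η ≤ 1 → ∃ a : ℕ, 1 ≤ a ∧ ∀ᵐ θ ∂P,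
  ∀ ε : ℝ, 0 < ε → ∀ᶠ j : ℕ in atTop, ∀ i : ℕ, 3 ≤ gr η i → (gr η i : ℝ) ≤ (((j : ℝ) + 1) ^ a) ^ (2 - η) →
    |JH θ k (gr η i) ((j : ℝ) ^ a) - cc k * AA k (gr η i)| ≤ ε * AA k (gr η i)

/-- INTH (25 min, Deps: AAL, MC). As EP/INTTE.lean: `T · JH(T)` is nondecreasing; `cc k ≥ 0`. -/
def S_INTH : Prop := ∀ (θ : ℕ → ℝ) (k η : ℝ) (a : ℕ), 0 < k → 1 ≤ a → 0 < η → η ≤ 1 →
  (∀ ε : ℝ, 0 < ε → ∀ᶠ j : ℕ in atTop, ∀ i : ℕ, 3 ≤ gr η i → (gr η i : ℝ) ≤ (((j : ℝ) + 1) ^ a) ^ (2 - η) →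
    |JH θ k (gr η i) ((j : ℝ) ^ a) - cc k * AA k (gr η i)| ≤ ε * AA k (gr η i)) →
  ∀ ε : ℝ, 0 < ε → ∃ T₀ : ℝ, 1 ≤ T₀ ∧ ∀ T : ℝ, T₀ ≤ T → ∀ i : ℕ, 3 ≤ gr η i → (gr η i : ℝ) ≤ T ^ (2 - η) →
    |JH θ k (gr η i) T - cc k * AA k (gr η i)| ≤ ε * AA k (gr η i)

/-- STPH (30 min, Deps: MUL). As EP/STEP.lean: `EU_y = EU_{gr i} (1 + δ')`, `|δ'| ≤ exp(C ∑ n^{-1/2}) - 1 → 0`; and
`| |2 Re(w(1+δ'))|^{2k} - |2 Re w|^{2k} | ≤ ε |w|^{2k}` for `|δ'|` small (homogeneous, uniformly continuous for `|w| = 1`). -/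
def S_STPH : Prop := ∀ (k η : ℝ), 0 < k → 0 < η → η ≤ 1 → ∀ δ : ℝ, 0 < δ → ∃ i₀ : ℕ, ∀ i : ℕ, i₀ ≤ i → ∀ y : ℕ,
  gr η i ≤ y → y < gr η (i + 1) → ∀ (θ : ℕ → ℝ) (t : ℝ),
    abs (|H θ y t| ^ (2 * k) - |H θ (gr η i) t| ^ (2 * k)) ≤ δ * ‖EU θ (gr η i) t‖ ^ (2 * k)

/-- INNH (30 min, Deps: STPH, STEP, AAL, JME, MC). From the grid to all `y`, as EP/INTNE.lean; the second hypothesis is the
conclusion of EP.INTTE. -/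
def S_INNH : Prop := ∀ (θ : ℕ → ℝ) (k η : ℝ), 0 < k → 0 < η → η ≤ 1 →
  (∀ ε : ℝ, 0 < ε → ∃ T₀ : ℝ, 1 ≤ T₀ ∧ ∀ T : ℝ, T₀ ≤ T → ∀ i : ℕ, 3 ≤ gr η i → (gr η i : ℝ) ≤ T ^ (2 - η) →
    |JH θ k (gr η i) T - cc k * AA k (gr η i)| ≤ ε * AA k (gr η i)) →
  (∀ ε : ℝ, 0 < ε → ∃ T₀ : ℝ, 1 ≤ T₀ ∧ ∀ T : ℝ, T₀ ≤ T → ∀ i : ℕ, 3 ≤ gr η i → (gr η i : ℝ) ≤ T ^ (2 - η) →
    |JE θ k (gr η i) T - AA k (gr η i)| ≤ ε * AA k (gr η i)) →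
  ∀ ε : ℝ, 0 < ε → ∃ (y₀ : ℕ) (T₀ : ℝ), 1 ≤ T₀ ∧ ∀ (T : ℝ) (y : ℕ), T₀ ≤ T → y₀ ≤ y → (y : ℝ) ≤ T ^ (2 - η) →
    |JH θ k y T - cc k * AA k y| ≤ ε * AA k y

/-- CCG (25 min, no Deps). `(1/2π) ∫_0^{2π} |2 cos|^{2k} = Γ(2k+1)/Γ(k+1)²` (Beta integral
`∫_0^{π/2} cos^{2k}`, duplication formula `Real.Gamma_mul_Gamma_add_half`). -/
def S_CCG : Prop := ∀ k : ℝ, 0 < k → cc k = Real.Gamma (2 * k + 1) / Real.Gamma (k + 1) ^ 2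

/-- FINH (25 min, Deps: JHG, GRE2, INTH, INTTE, INNH, MER, AAL, MC). As EP/FINE.lean (take the common grid exponent of JHG;
GRE2 with the same `a`: choose `a` from GRE2 and use it in JHG if you prefer, see the hypothesis below). -/
def S_FINH : Prop := ∀ k : ℝ, 0 < k → ∀ᵐ θ ∂P, ∀ η : ℝ, 0 < η → ∀ ε : ℝ, 0 < ε →
  ∃ (y₀ : ℕ) (T₀ : ℝ), ∀ (T : ℝ) (y : ℕ), T₀ ≤ T → y₀ ≤ y → (y : ℝ) ≤ T ^ (2 - η) →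
    |1 / T * (∫ t in T..(2 * T), |H θ y t| ^ (2 * k)) -
        cc k * (aF k * Real.exp (Real.eulerMascheroniConstant * k ^ 2)) * Real.log y ^ (k ^ 2)| ≤ ε * Real.log y ^ (k ^ 2)

end Pool.Agent.T2H98.EF
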